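import Pool.Agent.W740.TU.Disp
import Pool.Agent.W740.TC.Inj

set_option autoImplicit false
set_option linter.unusedSectionVars false

open Filter Topology Set Metric unitInterval

namespace Pool.Agent.W740.TU

open Pool.Agent.H789R2.AN Pool.Agent.H789R2.GP Pool.Agent.W740.TC

variable {X : Type*} [MetricSpace X] {u : ℕ} (p : X → Fin u → AddCircle (1 : ℝ))

/-- Small translations along the unstable leaves. -/
structure Ac (g : X ≃ₜ X) (p : X → Fin u → AddCircle (1 : ℝ)) (ε r : ℝ) : Prop where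
  r_pos : 0 < r
  ex : ∀ (x : X) (v : Fin u → ℝ), ‖v‖ ≤ r → ∃ y, SR g.symm ε x y ∧ dp p x y = v
  inj : ∀ x y, SR g.symm (3 * ε) x y → p x = p y → x = y
  sm : ∀ x y, dist x y ≤ ε → ‖dp p x y‖ < 1 / 4

namespace Ac

variable {p} {g : X ≃ₜ X} {ε r : ℝ} (H : Ac g p ε r)

open Classical in
/-- translation by a small vector -/
noncomputable def T (a : Fin u → ℝ) (x : X) : X :=
  if h : ‖a‖ ≤ r then (H.ex x a h).choose else x

theorem T_spec {a : Fin u → ℝ} (ha : ‖a‖ ≤ r) (x : X) :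
    SR g.symm ε x (H.T a x) ∧ dp p x (H.T a x) = a := by
  have h1 : H.T a x = (H.ex x a ha).choose := dif_pos ha
  rw [h1]
  exact (H.ex x a ha).choose_spec

theorem T_uniq {a : Fin u → ℝ} (ha : ‖a‖ ≤ r) {x y : X} (h : SR g.symm (2 * ε) x y)
    (hd : dp p x y = a) : y = H.T a x := by
  obtain ⟨h1, h2⟩ := H.T_spec ha x
  refine H.inj _ _ (fun k => ?_) ?_
  · have h3 := h k
    have h4 := h1 k
    have h5 := dist_triangle_left (g.symm^[k] y) (g.symm^[k] (H.T a x)) (g.symm^[k] x)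
    linarith
  · funext i
    have h3 := dp_coe p x y i
    have h4 := dp_coe p x (H.T a x) i
    rw [hd] at h3
    rw [h2] at h4
    rw [h3] at h4
    exact sub_left_inj.mp h4

theorem T_add {a b : Fin u → ℝ} (ha : ‖a‖ ≤ r) (hb : ‖b‖ ≤ r) (hab : ‖a + b‖ ≤ r) (x : X) :
    H.T a (H.T b x) = H.T (a + b) x := by
  obtain ⟨h1, h2⟩ := H.T_spec hb x
  obtain ⟨h3, h4⟩ := H.T_spec ha (H.T b x)
  apply H.T_uniq hab
  · intro k
    have h5 := h1 k
    have h6 := h3 k
    have h7 := dist_triangle (g.symm^[k] x) (g.symm^[k] (H.T b x)) (g.symm^[k] (H.T a (H.T b x)))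
    linarith
  · have h5 : dist x (H.T b x) ≤ ε := h1 0
    have h6 : dist (H.T b x) (H.T a (H.T b x)) ≤ ε := h3 0
    rw [dp_add p (y := H.T b x) (H.sm _ _ h5) (H.sm _ _ h6), h2, h4, add_comm]

theorem T_zero (x : X) : H.T 0 x = x := by
  have h0 : ‖(0 : Fin u → ℝ)‖ ≤ r := by rw [norm_zero]; exact H.r_pos.le
  refine (H.T_uniq h0 (fun k => ?_) (dp_self p x)).symm
  rw [dist_self]
  have := (H.T_spec h0 x).1 0
  have h1 : 0 ≤ ε := le_trans dist_nonneg this
  linarith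

theorem T_iter {a : Fin u → ℝ} (n : ℕ) (h : ‖(n : ℝ) • a‖ ≤ r) (x : X) :
    (H.T a)^[n] x = H.T ((n : ℝ) • a) x := by
  induction n with
  | zero =>
    rw [Nat.cast_zero, zero_smul, H.T_zero]
    rfl
  | succ n ih =>
    rw [norm_smul, Real.norm_natCast] at h
    have h0 : 0 ≤ ‖a‖ := norm_nonneg a
    push_cast at h
    have h1 : ‖(n : ℝ) • a‖ ≤ r := by
      rw [norm_smul, Real.norm_natCast]
      linarith
    have h2 : ‖a‖ ≤ r := by
      have : 0 ≤ (n : ℝ) * ‖a‖ := by positivity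
      linarith
    have h3 : a + (n : ℝ) • a = ((n + 1 : ℕ) : ℝ) • a := by
      push_cast
      rw [add_smul, one_smul, add_comm]
    rw [Function.iterate_succ_apply', ih h1, H.T_add h2 h1 (by
      rw [h3, norm_smul, Real.norm_natCast]; push_cast; exact h), h3]

theorem T_comm {a b : Fin u → ℝ} (ha : ‖a‖ ≤ r) (hb : ‖b‖ ≤ r) (hab : ‖a + b‖ ≤ r) :
    Function.Commute (H.T a) (H.T b) := by
  intro x
  rw [H.T_add ha hb hab, H.T_add hb ha (by rwa [add_comm]), add_comm]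

/-- the translation by a long vector, in `m` steps -/
noncomputable def P (m : ℕ) (v : Fin u → ℝ) (x : X) : X := (H.T ((m : ℝ)⁻¹ • v))^[m] x

theorem norm_inv_smul {m : ℕ} (hm : 1 ≤ m) {v : Fin u → ℝ} {r : ℝ} (h : ‖v‖ ≤ m * r) :
    ‖(m : ℝ)⁻¹ • v‖ ≤ r := by
  have hm0 : (0 : ℝ) < m := by exact_mod_cast hm
  rw [norm_smul, norm_inv, Real.norm_natCast, inv_mul_le_iff₀ hm0]
  exact h

theorem P_mul {m m' : ℕ} (hm : 1 ≤ m) (hm' : 1 ≤ m') {v : Fin u → ℝ} (h : ‖v‖ ≤ m * r) (x : X) :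
    H.P (m' * m) v x = H.P m v x := by
  unfold P
  rw [Function.iterate_mul]
  congr 1
  have hm0 : (m : ℝ) ≠ 0 := by
    have : (0 : ℝ) < m := by exact_mod_cast hm
    exact this.ne'
  have hm0' : (m' : ℝ) ≠ 0 := by
    have : (0 : ℝ) < m' := by exact_mod_cast hm'
    exact this.ne'
  have e1 : (m' : ℝ) • (((m' * m : ℕ) : ℝ)⁻¹ • v) = (m : ℝ)⁻¹ • v := by
    rw [smul_smul]
    congr 1
    push_cast
    field_simp
  funext y
  rw [H.T_iter m' (by rw [e1]; exact norm_inv_smul hm h), e1]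

theorem P_indep {m m' : ℕ} (hm : 1 ≤ m) (hm' : 1 ≤ m') {v : Fin u → ℝ} (h : ‖v‖ ≤ m * r)
    (h' : ‖v‖ ≤ m' * r) (x : X) : H.P m v x = H.P m' v x := by
  rw [← H.P_mul hm hm' h x, ← H.P_mul hm' hm h' x, Nat.mul_comm]

theorem T_P {m : ℕ} (hm : 1 ≤ m) {v a : Fin u → ℝ} (hv : ‖v‖ ≤ m * r) (ha : ‖a‖ ≤ r)
    (hva : ‖v + a‖ ≤ m * r) (x : X) : H.T a (H.P m v x) = H.P m (v + a) x := by
  have hr := H.r_pos
  have hm1 : (1 : ℝ) ≤ m := by exact_mod_cast hm
  have ha' : ‖a‖ ≤ m * r := by nlinarith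
  have hm0 : (m : ℝ) ≠ 0 := by
    have : (0 : ℝ) < m := by exact_mod_cast hm
    exact this.ne'
  have e1 : (m : ℝ) • ((m : ℝ)⁻¹ • a) = a := by
    rw [smul_smul, mul_inv_cancel₀ hm0, one_smul]
  have e2 : H.T a = (H.T ((m : ℝ)⁻¹ • a))^[m] := by
    funext y
    rw [H.T_iter m (by rw [e1]; exact ha), e1]
  have e3 : (m : ℝ)⁻¹ • a + (m : ℝ)⁻¹ • v = (m : ℝ)⁻¹ • (v + a) := by
    rw [smul_add, add_comm]
  have h1 := norm_inv_smul hm ha'
  have h2 := norm_inv_smul hm hv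
  have h3 := norm_inv_smul hm hva
  have hc := H.T_comm h1 h2 (by rw [e3]; exact h3)
  have h4 := congrFun (hc.comp_iterate m) x
  unfold P
  rw [e2]
  refine h4.symm.trans ?_
  congr 1
  funext y
  show H.T ((m : ℝ)⁻¹ • a) (H.T ((m : ℝ)⁻¹ • v) y) = _
  rw [H.T_add h1 h2 (by rw [e3]; exact h3), e3]

/-- distances after a long translation -/
theorem P_dist {c : ℝ} (h : LP g c) (hε : ε ≤ c) {m : ℕ} (hm : 1 ≤ m) {v : Fin u → ℝ}
    (hv : ‖v‖ ≤ m * r) (x : X) (n : ℕ) :
    dist (g.symm^[n] x) (g.symm^[n] (H.P m v x)) ≤ m * (c * (1 / 2) ^ n) := by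
  have h1 := norm_inv_smul hm hv
  have key : ∀ j : ℕ, dist (g.symm^[n] x) (g.symm^[n] ((H.T ((m : ℝ)⁻¹ • v))^[j] x)) ≤
      j * (c * (1 / 2) ^ n) := by
    intro j
    induction j with
    | zero => simp
    | succ j ih =>
      rw [Function.iterate_succ_apply']
      set z := (H.T ((m : ℝ)⁻¹ • v))^[j] x
      have h2 := h.cU _ _ ((H.T_spec h1 z).1.mono hε) n
      have h3 := dist_triangle (g.symm^[n] x) (g.symm^[n] z)
        (g.symm^[n] (H.T ((m : ℝ)⁻¹ • v) z))
      push_cast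
      linarith
  exact key m

end Ac

variable {p}

/-- a path in an unstable leaf is uniformly continuous for the leaf topology -/
theorem path_unif [CompactSpace X] {f : X ≃ₜ X} {γ : C(I, X)} (hγ : UnstablePath f.symm γ)
    {ε : ℝ} (hε : 0 < ε) : ∃ δ > 0, ∀ s t : I, dist s t < δ →
      ∀ n : ℕ, dist (f.symm^[n] (γ s)) (f.symm^[n] (γ t)) ≤ ε := by
  rw [uniform_path] at hγ
  obtain ⟨n₀, hn₀⟩ := eventually_atTop.mp (hγ (ε / 2) (half_pos hε))
  have key : ∀ m : ℕ, ∃ δ > 0, ∀ s t : I, dist s t < δ →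
      ∀ n < m, dist (f.symm^[n] (γ s)) (f.symm^[n] (γ t)) ≤ ε := by
    intro m
    induction m with
    | zero => exact ⟨1, one_pos, fun s t _ n hn => absurd hn (Nat.not_lt_zero n)⟩
    | succ m ih =>
      obtain ⟨δ, hδ, h1⟩ := ih
      have hu : UniformContinuous (fun t => f.symm^[m] (γ t)) :=
        CompactSpace.uniformContinuous_of_continuous
          ((f.symm.continuous.iterate m).comp γ.continuous)
      obtain ⟨δ', hδ', h2⟩ := Metric.uniformContinuous_iff.mp hu ε hε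
      refine ⟨min δ δ', lt_min hδ hδ', fun s t hst n hn => ?_⟩
      rcases Nat.lt_succ_iff_lt_or_eq.mp hn with h3 | h3
      · exact h1 s t (hst.trans_le (min_le_left _ _)) n h3
      · rw [h3]
        exact (h2 (hst.trans_le (min_le_right _ _))).le
  obtain ⟨δ, hδ, h1⟩ := key n₀
  refine ⟨δ, hδ, fun s t hst n => ?_⟩
  rcases lt_or_ge n n₀ with h2 | h2
  · exact h1 s t hst n h2
  · have h3 := hn₀ n h2 s
    have h4 := hn₀ n h2 t
    have h5 := dist_triangle_left (f.symm^[n] (γ s)) (f.symm^[n] (γ t)) (f.symm^[n] (γ 0))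
    linarith

/-- The end of an unstable path is a translate of its origin. -/
theorem Ac.path [CompactSpace X] {f g : X ≃ₜ X} {N : ℕ} (hg : ∀ x, g x = f^[N] x)
    {ε r : ℝ} (H : Ac g p ε r) (hε : 0 < ε) (γ : C(I, X)) (θ : C(I, Fin u → ℝ))
    (hγ : UnstablePath f.symm γ)
    (hθ : ∀ t i, ((θ t i : ℝ) : AddCircle (1 : ℝ)) = p (γ t) i) :
    ∃ m₀ : ℕ, ∀ m ≥ m₀, 1 ≤ m → γ 1 = H.P m (θ 1 - θ 0) (γ 0) := by
  have hr := H.r_pos
  obtain ⟨δ, hδ, h1⟩ := path_unif hγ hε
  have hu : UniformContinuous θ := CompactSpace.uniformContinuous_of_continuous θ.continuous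
  obtain ⟨δ', hδ', h2⟩ := Metric.uniformContinuous_iff.mp hu (min r (1 / 4))
    (lt_min hr (by norm_num))
  obtain ⟨M, hM⟩ := exists_nat_gt (1 / min δ δ')
  have hδδ : 0 < min δ δ' := lt_min hδ hδ'
  have hM0 : (0 : ℝ) < M := lt_trans (by positivity) hM
  let t : ℕ → I := fun i => Set.projIcc 0 1 zero_le_one ((i : ℝ) / M)
  have ht0 : t 0 = 0 := by
    apply Subtype.ext
    simp [t, Set.projIcc]
  have htM : t M = 1 := by
    apply Subtype.ext
    simp [t, Set.projIcc, hM0.ne']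
  have htd : ∀ i, dist (t i) (t (i + 1)) < min δ δ' := by
    intro i
    have hNη : 1 / (M : ℝ) < min δ δ' := by
      rw [div_lt_iff₀ hM0]
      rw [div_lt_iff₀ hδδ] at hM
      linarith [mul_comm (M : ℝ) (min δ δ')]
    refine lt_of_le_of_lt ?_ hNη
    have h3 : dist (t i) (t (i + 1)) ≤ dist ((i : ℝ) / M) (((i + 1 : ℕ) : ℝ) / M) := by
      have h5 := (LipschitzWith.projIcc (a := (0 : ℝ)) (b := 1) zero_le_one).dist_le_mul
        ((i : ℝ) / M) (((i + 1 : ℕ) : ℝ) / M)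
      simpa [t] using h5
    refine h3.trans (le_of_eq ?_)
    rw [Real.dist_eq]
    push_cast
    rw [show (i : ℝ) / M - (i + 1) / M = -(1 / M) by ring, abs_neg, abs_of_pos (by positivity)]
  -- a bound for the lift
  obtain ⟨R, hR⟩ : ∃ R : ℝ, ∀ s, ‖θ s - θ 0‖ ≤ R := by
    have hc : Continuous (fun s => ‖θ s - θ 0‖) := (θ.continuous.sub continuous_const).norm
    obtain ⟨s, hs⟩ := hc.exists_forall_ge' (x₀ := (0 : I)) (by
      rw [Filter.cocompact_eq_bot]; exact Filter.eventually_bot)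
    exact ⟨_, hs⟩
  obtain ⟨m₀, hm₀⟩ := exists_nat_ge (R / r)
  refine ⟨m₀, fun m hm hm1 => ?_⟩
  have hRm : R ≤ m * r := by
    rw [div_le_iff₀ hr] at hm₀
    have : (m₀ : ℝ) ≤ m := by exact_mod_cast hm
    nlinarith
  have hgs : ∀ (q : ℕ) (z : X), g.symm^[q] z = f.symm^[N * q] z := by
    intro q
    induction q with
    | zero => intro z; rfl
    | succ q ih =>
      intro z
      have e2 : g.symm z = f.symm^[N] z := by
        apply g.injective
        rw [g.apply_symm_apply, hg, iterR]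
      rw [Nat.mul_succ, Function.iterate_add_apply f.symm, ← e2, ← ih]
      rfl
  have key : ∀ i : ℕ, γ (t i) = H.P m (θ (t i) - θ 0) (γ 0) := by
    intro i
    induction i with
    | zero =>
      rw [ht0, sub_self]
      unfold Ac.P
      rw [smul_zero]
      have : ∀ n : ℕ, (H.T 0)^[n] (γ 0) = γ 0 := by
        intro n
        induction n with
        | zero => rfl
        | succ n ih => rw [Function.iterate_succ_apply', ih, H.T_zero]
      exact (this m).symm
    | succ i ih =>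
      have h3 := htd i
      have h4 : ‖θ (t (i + 1)) - θ (t i)‖ < min r (1 / 4) := by
        rw [← dist_eq_norm, dist_comm]
        exact h2 (h3.trans_le (min_le_right _ _))
      have h5 : SR g.symm ε (γ (t i)) (γ (t (i + 1))) := by
        intro k
        rw [hgs, hgs]
        exact h1 _ _ (h3.trans_le (min_le_left _ _)) _
      have h6 : dp p (γ (t i)) (γ (t (i + 1))) = θ (t (i + 1)) - θ (t i) := by
        apply dp_eq
        · exact (h4.trans_le (min_le_right _ _)).trans (by norm_num)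
        · intro j
          rw [Pi.sub_apply, AddCircle.coe_sub, hθ, hθ]
      have h7 := H.T_uniq (h4.le.trans (min_le_left _ _)) (h5.mono (by linarith)) h6
      rw [h7, ih, H.T_P hm1 ((hR _).trans hRm) (h4.le.trans (min_le_left _ _))]
      · congr 1
        abel
      · have e1 : θ (t i) - θ 0 + (θ (t (i + 1)) - θ (t i)) = θ (t (i + 1)) - θ 0 := by abel
        rw [e1]
        exact (hR _).trans hRm
  have h3 := key M
  rw [htM] at h3
  exact h3

end Pool.Agent.W740.TU
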