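import Pool.Agent.W740.TC.Pre

set_option autoImplicit false
set_option linter.unusedSectionVars false

open Filter Topology Set Metric

namespace Pool.Agent.W740.TU

open Pool.Agent.W740.TC (ell coe_ell ell_coe norm_ell abs_ell_le)

variable {X : Type*} [MetricSpace X] {u : ℕ} (p : X → Fin u → AddCircle (1 : ℝ))

/-- the displacement -/
noncomputable def dp (x y : X) : Fin u → ℝ := fun i => ell (p y i - p x i)

theorem dp_coe (x y : X) (i : Fin u) :
    ((dp p x y i : ℝ) : AddCircle (1 : ℝ)) = p y i - p x i := coe_ell _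

theorem dp_eq {x y : X} {w : Fin u → ℝ} (h : ‖w‖ < 1 / 2)
    (hw : ∀ i, ((w i : ℝ) : AddCircle (1 : ℝ)) = p y i - p x i) : dp p x y = w := by
  funext i
  show ell (p y i - p x i) = w i
  rw [← hw i]
  exact ell_coe ((norm_le_pi_norm w i).trans_lt h)

theorem dp_self (x : X) : dp p x x = 0 :=
  dp_eq p (by rw [norm_zero]; norm_num) fun i => by simp

theorem dp_norm (x y : X) : ‖dp p x y‖ = ‖p y - p x‖ := by
  rw [Pi.norm_def, Pi.norm_def]
  congr 1
  refine Finset.sup_congr rfl fun i _ => ?_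
  apply NNReal.eq
  show ‖ell (p y i - p x i)‖ = ‖p y i - p x i‖
  rw [Real.norm_eq_abs, norm_ell]

theorem dp_small [CompactSpace X] (hp : Continuous p) {ε : ℝ} (hε : 0 < ε) :
    ∃ δ > 0, ∀ x y, dist x y < δ → ‖dp p x y‖ < ε := by
  have hu : UniformContinuous p := CompactSpace.uniformContinuous_of_continuous hp
  obtain ⟨δ, hδ, h⟩ := Metric.uniformContinuous_iff.mp hu ε hε
  refine ⟨δ, hδ, fun x y hxy => ?_⟩
  rw [dp_norm, ← dist_eq_norm, dist_comm]
  exact h hxy

theorem dp_add {x y z : X} (h1 : ‖dp p x y‖ < 1 / 4) (h2 : ‖dp p y z‖ < 1 / 4) :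
    dp p x z = dp p x y + dp p y z := by
  apply dp_eq
  · have := norm_add_le (dp p x y) (dp p y z)
    linarith
  · intro i
    rw [Pi.add_apply, AddCircle.coe_add, dp_coe, dp_coe]
    abel

theorem dp_eq_zero {x y : X} (h : dp p x y = 0) : p x = p y := by
  have h1 := dp_norm p x y
  rw [h, norm_zero] at h1
  exact (sub_eq_zero.mp (norm_eq_zero.mp h1.symm)).symm

/-- a scale at which the displacement is small -/
def Sc (η : ℝ) : Prop := 0 < η ∧ ∀ x y, dist x y < η → ‖dp p x y‖ < 1 / 8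

theorem exists_sc [CompactSpace X] (hp : Continuous p) : ∃ η, Sc p η := by
  obtain ⟨η, hη, h⟩ := dp_small p hp (ε := 1 / 8) (by norm_num)
  exact ⟨η, hη, h⟩

theorem dp_cont [CompactSpace X] (hp : Continuous p) {η : ℝ} (hη : Sc p η) (x : X) :
    ContinuousOn (dp p x) (ball x η) := by
  intro y hy
  rw [Metric.continuousWithinAt_iff]
  intro ε hε
  obtain ⟨δ, hδ, h1⟩ := dp_small p hp (ε := min ε (1 / 8)) (lt_min hε (by norm_num))
  refine ⟨δ, hδ, fun {z} hz hzy => ?_⟩
  have h2 := h1 y z (by rwa [dist_comm])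
  have h3 := hη.2 x y (by rwa [dist_comm, ← mem_ball])
  rw [dp_add p (y := y) (h3.trans (by norm_num))
    ((h2.trans_le (min_le_right _ _)).trans (by norm_num)), dist_eq_norm, add_sub_cancel_left]
  exact h2.trans_le (min_le_left _ _)

end Pool.Agent.W740.TU
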