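import Pool.Agent.W740.TC.Conv
import Pool.Agent.W740.TU.Disp
import Pool.Agent.W964.LieExp.InvDim

set_option autoImplicit false
set_option linter.unusedSectionVars false

open Filter Topology Set Metric

namespace Pool.Agent.W740.TU

open Pool.Agent.W740.TC Pool.Agent.H779R2.To

/-- the real expanding subspace of an integer matrix -/
noncomputable def WR {m : ℕ} (A : Matrix (Fin m) (Fin m) ℤ) : Submodule ℝ (Fin m → ℝ) :=
  ((Wu (cx A)).restrictScalars ℝ).comap (inc m)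

theorem mem_WR {m : ℕ} (A : Matrix (Fin m) (Fin m) ℤ) (v : Fin m → ℝ) :
    v ∈ WR A ↔ inc m v ∈ Wu (cx A) := Iff.rfl

theorem WR_of_bdd {m : ℕ} (A A' : Matrix (Fin m) (Fin m) ℤ) (hAA : A * A' = 1) (hA : HypMat A)
    (v : Fin m → ℝ) (hv : ∃ (K : ℝ) (n₀ : ℕ), ∀ n ≥ n₀, ‖(am A')^[n] v‖ ≤ K) : v ∈ WR A := by
  obtain ⟨C, l, hC, hl, hl', h⟩ := bdd_contr A A' hAA hA
  have h1 := h v hv
  -- the projections
  set T := cx A with hT
  have hc := W_compl T
  set T' := cx A' with hT'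
  have hTT : ∀ w, T (T' w) = w := by
    intro w
    show Matrix.toLin' (A.map (Int.cast : ℤ → ℂ)) (Matrix.toLin' (A'.map (Int.cast : ℤ → ℂ)) w) = w
    rw [← LinearMap.comp_apply, ← Matrix.toLin'_mul]
    have h1 : A.map (Int.cast : ℤ → ℂ) * A'.map (Int.cast : ℤ → ℂ) = 1 := by
      have h2 := congrArg (fun B : Matrix (Fin m) (Fin m) ℤ => B.map (Int.castRingHom ℂ)) hAA
      simp only [Matrix.map_mul] at h2
      rw [Matrix.map_one _ (map_zero _) (map_one _)] at h2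
      exact h2
    rw [h1, Matrix.toLin'_one]
    rfl
  have hTpow : ∀ (n : ℕ) (w : Fin m → ℂ), (T ^ n) ((T' ^ n) w) = w := by
    intro n
    induction n with
    | zero => intro w; rfl
    | succ n ih =>
      intro w
      rw [pow_succ, pow_succ' T']
      show (T ^ n) (T (T' ((T' ^ n) w))) = w
      rw [hTT, ih]
  have hinc : ∀ (n : ℕ) (v : Fin m → ℝ), (T' ^ n) (inc m v) = inc m ((am A')^[n] v) := by
    intro n v
    induction n with
    | zero => rfl
    | succ n ih =>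
      rw [pow_succ', Function.iterate_succ_apply']
      show T' ((T' ^ n) (inc m v)) = _
      rw [ih]
      exact cx_inc A' _
  have hbij : Function.Bijective T := by
    have hs : Function.Surjective T := fun w => ⟨T' w, hTT w⟩
    exact ⟨LinearMap.injective_iff_surjective.mpr hs, hs⟩
  have hT'T : ∀ w, T' (T w) = w := fun w => hbij.1 (hTT _)
  have hinv : ∀ (S : Submodule ℂ (Fin m → ℂ)), (∀ v ∈ S, T v ∈ S) → ∀ v ∈ S, T' v ∈ S := by
    intro S hS v hv
    have h3 : Function.Injective (T.restrict hS) := by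
      intro a b hab
      apply Subtype.ext
      apply hbij.1
      have := congrArg (fun w : S => (w : Fin m → ℂ)) hab
      exact this
    obtain ⟨w, hw⟩ := LinearMap.injective_iff_surjective.mp h3 ⟨v, hv⟩
    have h4 : T (w : Fin m → ℂ) = v := congrArg (fun w : S => (w : Fin m → ℂ)) hw
    rw [← h4, hT'T]
    exact w.2
  have hinvp : ∀ (S : Submodule ℂ (Fin m → ℂ)), (∀ v ∈ S, T v ∈ S) → ∀ (n : ℕ), ∀ v ∈ S,
      (T' ^ n) v ∈ S := by
    intro S hS n
    induction n with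
    | zero => intro v hv; exact hv
    | succ n ih =>
      intro v hv
      rw [pow_succ']
      exact hinv S hS _ (ih v hv)
  have hTc : ∀ (n : ℕ) (v : Wc T), (((Tc T) ^ n) v : Fin m → ℂ) = (T ^ n) v := by
    intro n
    induction n with
    | zero => intro v; rfl
    | succ n ih =>
      intro v
      rw [pow_succ', pow_succ' T]
      show T (((Tc T) ^ n) v : Fin m → ℂ) = T ((T ^ n) v)
      rw [ih]
  set Kp := ‖LinearMap.toContinuousLinearMap ((Wc T).projectionOnto (Wu T) hc.symm)‖ with hKpd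
  have hKp : ∀ w, ‖((Wc T).projectionOnto (Wu T) hc.symm) w‖ ≤ Kp * ‖w‖ := fun w =>
    (LinearMap.toContinuousLinearMap ((Wc T).projectionOnto (Wu T) hc.symm)).le_opNorm w
  have hKp0 : 0 ≤ Kp := by rw [hKpd]; positivity
  set uu := ((Wu T).projectionOnto (Wc T) hc) (inc m v) with hu
  set c := ((Wc T).projectionOnto (Wu T) hc.symm) (inc m v) with hcdef
  have hsum : inc m v = (uu : Fin m → ℂ) + (c : Fin m → ℂ) :=
    (Submodule.projection_add_projection_eq_self hc (inc m v)).symm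
  have hproj : ∀ n, ((Wc T).projectionOnto (Wu T) hc.symm) ((T' ^ n) (inc m v)) =
      ⟨(T' ^ n) c, hinvp (Wc T) (Wc_map T) n _ c.2⟩ := by
    intro n
    rw [hsum, map_add, map_add]
    have e1 : ((Wc T).projectionOnto (Wu T) hc.symm) ((T' ^ n) (uu : Fin m → ℂ)) = 0 := by
      rw [Submodule.projectionOnto_apply_eq_zero_iff]
      exact hinvp (Wu T) (Wu_map T) n _ uu.2
    have e2 : ((Wc T).projectionOnto (Wu T) hc.symm) ((T' ^ n) (c : Fin m → ℂ)) =
        ⟨(T' ^ n) c, hinvp (Wc T) (Wc_map T) n _ c.2⟩ :=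
      Submodule.projectionOnto_apply_left hc.symm ⟨(T' ^ n) c, hinvp (Wc T) (Wc_map T) n _ c.2⟩
    rw [e1, e2, zero_add]
  -- growth of the non-expanding part against the contraction
  obtain ⟨δ, hδ, hδl⟩ : ∃ δ : ℝ, 0 < δ ∧ (1 + δ) * l < 1 := by
    refine ⟨(1 - l) / 2, by linarith, ?_⟩
    nlinarith
  obtain ⟨C₂, hC₂, h2⟩ := Tc_growth T δ hδ
  have hcn : ∀ n : ℕ, ‖c‖ ≤ (C₂ * (Kp * (C * ‖v‖))) * ((1 + δ) * l) ^ n := by
    intro n
    have e1 := h2 n ⟨(T' ^ n) c, hinvp (Wc T) (Wc_map T) n _ c.2⟩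
    have e2 : ((Tc T) ^ n) ⟨(T' ^ n) c, hinvp (Wc T) (Wc_map T) n _ c.2⟩ = c := by
      apply Subtype.ext
      rw [hTc]
      exact hTpow n _
    rw [e2] at e1
    have e3 : ‖(⟨(T' ^ n) c, hinvp (Wc T) (Wc_map T) n _ c.2⟩ : Wc T)‖ ≤
        Kp * (C * l ^ n * ‖v‖) := by
      rw [← hproj]
      refine (hKp _).trans ?_
      rw [hinc, inc_norm]
      exact mul_le_mul_of_nonneg_left (h1 n) hKp0
    calc ‖c‖ ≤ C₂ * (1 + δ) ^ n * (Kp * (C * l ^ n * ‖v‖)) :=
          e1.trans (mul_le_mul_of_nonneg_left e3 (by positivity))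
      _ = _ := by rw [mul_pow]; ring
  have ht : Tendsto (fun n : ℕ => (C₂ * (Kp * (C * ‖v‖))) * ((1 + δ) * l) ^ n) atTop (𝓝 0) := by
    have := (tendsto_pow_atTop_nhds_zero_of_lt_one (by positivity : 0 ≤ (1 + δ) * l)
      hδl).const_mul (C₂ * (Kp * (C * ‖v‖)))
    simpa using this
  have hc0 : ‖c‖ ≤ 0 := ge_of_tendsto' ht hcn
  have hc1 : c = 0 := norm_le_zero_iff.mp hc0
  rw [mem_WR, hsum, hc1]
  show (uu : Fin m → ℂ) + 0 ∈ Wu T
  rw [add_zero]
  exact uu.2

theorem WR_contr {m : ℕ} (A A' : Matrix (Fin m) (Fin m) ℤ) (hAA : A' * A = 1) :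
    ∃ C l : ℝ, 1 ≤ C ∧ 0 ≤ l ∧ l < 1 ∧ ∀ v ∈ WR A, ∀ n, ‖(am A')^[n] v‖ ≤ C * l ^ n * ‖v‖ := by
  set T := cx A with hT
  set T' := cx A' with hT'
  have hTT : ∀ w, T' (T w) = w := by
    intro w
    show Matrix.toLin' (A'.map (Int.cast : ℤ → ℂ)) (Matrix.toLin' (A.map (Int.cast : ℤ → ℂ)) w) = w
    rw [← LinearMap.comp_apply, ← Matrix.toLin'_mul]
    have h1 : A'.map (Int.cast : ℤ → ℂ) * A.map (Int.cast : ℤ → ℂ) = 1 := by
      have h2 := congrArg (fun B : Matrix (Fin m) (Fin m) ℤ => B.map (Int.castRingHom ℂ)) hAA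
      simp only [Matrix.map_mul] at h2
      rw [Matrix.map_one _ (map_zero _) (map_one _)] at h2
      exact h2
    rw [h1, Matrix.toLin'_one]
    rfl
  have hbij : Function.Bijective T := by
    have hi : Function.Injective T := fun a b hab => by rw [← hTT a, hab, hTT b]
    exact ⟨hi, LinearMap.injective_iff_surjective.mp hi⟩
  have hTT' : ∀ w, T (T' w) = w := by
    intro w
    obtain ⟨z, rfl⟩ := hbij.2 w
    rw [hTT]
  have hTpow : ∀ (n : ℕ) (w : Fin m → ℂ), (T ^ n) ((T' ^ n) w) = w := by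
    intro n
    induction n with
    | zero => intro w; rfl
    | succ n ih =>
      intro w
      rw [pow_succ, pow_succ' T']
      show (T ^ n) (T (T' ((T' ^ n) w))) = w
      rw [hTT', ih]
  have hinc : ∀ (n : ℕ) (v : Fin m → ℝ), (T' ^ n) (inc m v) = inc m ((am A')^[n] v) := by
    intro n v
    induction n with
    | zero => rfl
    | succ n ih =>
      rw [pow_succ', Function.iterate_succ_apply']
      show T' ((T' ^ n) (inc m v)) = _
      rw [ih]
      exact cx_inc A' _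
  have hinvp : ∀ (n : ℕ), ∀ v ∈ Wu T, (T' ^ n) v ∈ Wu T := by
    have hinv : ∀ v ∈ Wu T, T' v ∈ Wu T := by
      intro v hv
      have h3 : Function.Injective (T.restrict (Wu_map T)) := by
        intro a b hab
        apply Subtype.ext
        apply hbij.1
        have := congrArg (fun w : Wu T => (w : Fin m → ℂ)) hab
        exact this
      obtain ⟨w, hw⟩ := LinearMap.injective_iff_surjective.mp h3 ⟨v, hv⟩
      have h4 : T (w : Fin m → ℂ) = v := congrArg (fun w : Wu T => (w : Fin m → ℂ)) hw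
      rw [← h4, hTT]
      exact w.2
    intro n
    induction n with
    | zero => intro v hv; exact hv
    | succ n ih =>
      intro v hv
      rw [pow_succ']
      exact hinv _ (ih v hv)
  have hTu : ∀ (n : ℕ) (v : Wu T), (((Tu T) ^ n) v : Fin m → ℂ) = (T ^ n) v := by
    intro n
    induction n with
    | zero => intro v; rfl
    | succ n ih =>
      intro v
      rw [pow_succ', pow_succ' T]
      show T (((Tu T) ^ n) v : Fin m → ℂ) = T ((T ^ n) v)
      rw [ih]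
  obtain ⟨C₁, l₁, hl₁, hl₁', h1⟩ := Tu_exp T
  refine ⟨max C₁ 1, l₁, le_max_right _ _, hl₁, hl₁', fun v hv n => ?_⟩
  have hv' : inc m v ∈ Wu T := hv
  have e1 := h1 n ⟨(T' ^ n) (inc m v), hinvp n _ hv'⟩
  have e2 : ‖((Tu T) ^ n) ⟨(T' ^ n) (inc m v), hinvp n _ hv'⟩‖ = ‖v‖ := by
    have : ((((Tu T) ^ n) ⟨(T' ^ n) (inc m v), hinvp n _ hv'⟩ : Wu T) :
        Fin m → ℂ) = inc m v := by
      rw [hTu]
      exact hTpow n _
    show ‖((((Tu T) ^ n) ⟨(T' ^ n) (inc m v), hinvp n _ hv'⟩ : Wu T) :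
        Fin m → ℂ)‖ = ‖v‖
    rw [this, inc_norm]
  have e3 : ‖(⟨(T' ^ n) (inc m v), hinvp n _ hv'⟩ : Wu T)‖ =
      ‖(am A')^[n] v‖ := by
    show ‖(T' ^ n) (inc m v)‖ = _
    rw [hinc, inc_norm]
  rw [e2, e3] at e1
  refine e1.trans (mul_le_mul_of_nonneg_right ?_ (norm_nonneg _))
  exact mul_le_mul_of_nonneg_right (le_max_left _ _) (pow_nonneg hl₁ n)

/-- An integer matrix that is injective on a given subspace of small dimension. -/
theorem exists_int_inj {m u : ℕ} (W : Submodule ℝ (Fin m → ℝ)) (hW : Module.finrank ℝ W ≤ u) :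
    ∃ B : Matrix (Fin u) (Fin m) ℤ, ∀ v ∈ W, (∀ i, ∑ j, (B i j : ℝ) * v j = 0) → v = 0 := by
  have h1 : Module.finrank ℝ W ≤ Module.finrank ℝ (Fin u → ℝ) := by
    rw [Module.finrank_fin_fun]; exact hW
  obtain ⟨j, hj⟩ : ∃ j : W →ₗ[ℝ] (Fin u → ℝ), Function.Injective j :=
    finrank_le_iff_exists_linearMap.1 h1
  obtain ⟨L, hL⟩ := LinearMap.exists_extend j
  have hLj : ∀ v : W, L v = j v := fun v => by rw [← hL]; rfl
  obtain ⟨K, hK, hanti⟩ := LinearMap.exists_antilipschitzWith j (LinearMap.ker_eq_bot.mpr hj)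
  have hK' : ∀ v : W, ‖v‖ ≤ K * ‖j v‖ := fun v => by
    have := hanti.le_mul_dist v 0
    rwa [map_zero, dist_zero_right, dist_zero_right] at this
  have hK0 : (0 : ℝ) < K := by exact_mod_cast hK
  obtain ⟨q, hq⟩ := exists_nat_gt (max 1 ((K : ℝ) * m))
  have hq1 : (1 : ℝ) < q := lt_of_le_of_lt (le_max_left _ _) hq
  have hq2 : (K : ℝ) * m < q := lt_of_le_of_lt (le_max_right _ _) hq
  have hq0 : (0 : ℝ) < q := by linarith
  refine ⟨fun i k => round ((q : ℝ) * L (Pi.single k 1) i), fun v hv h0 => ?_⟩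
  -- expansion of `L v`
  have hexp : ∀ i, L v i = ∑ k, L (Pi.single k 1) i * v k := by
    intro i
    have e1 : v = ∑ k, v k • (Pi.single k (1 : ℝ) : Fin m → ℝ) := by
      funext a
      simp [Finset.sum_apply, Pi.single_apply]
    conv_lhs => rw [e1]
    rw [map_sum, Finset.sum_apply]
    refine Finset.sum_congr rfl fun k _ => ?_
    rw [map_smul, Pi.smul_apply, smul_eq_mul, mul_comm]
  have hb : ∀ i, |(q : ℝ) * L v i| ≤ m / 2 * ‖v‖ := by
    intro i
    have e1 : (q : ℝ) * L v i = ∑ k, ((q : ℝ) * L (Pi.single k 1) i -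
        (round ((q : ℝ) * L (Pi.single k 1) i) : ℝ)) * v k := by
      simp only [sub_mul, Finset.sum_sub_distrib]
      have h2 := h0 i
      have h3 : ∑ k, ((round ((q : ℝ) * L (Pi.single k 1) i) : ℤ) : ℝ) * v k = 0 := h2
      rw [h3, sub_zero, hexp, Finset.mul_sum]
      refine Finset.sum_congr rfl fun k _ => ?_
      ring
    rw [e1]
    calc |∑ k, ((q : ℝ) * L (Pi.single k 1) i -
          (round ((q : ℝ) * L (Pi.single k 1) i) : ℝ)) * v k| ≤
          ∑ k, |((q : ℝ) * L (Pi.single k 1) i -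
          (round ((q : ℝ) * L (Pi.single k 1) i) : ℝ)) * v k| := Finset.abs_sum_le_sum_abs _ _
      _ ≤ ∑ _k : Fin m, 1 / 2 * ‖v‖ := by
          refine Finset.sum_le_sum fun k _ => ?_
          rw [abs_mul]
          exact mul_le_mul (abs_sub_round _) (norm_le_pi_norm v k) (abs_nonneg _) (by norm_num)
      _ = m / 2 * ‖v‖ := by
          rw [Finset.sum_const, Finset.card_univ, Fintype.card_fin, nsmul_eq_mul]
          ring
  have hLv : (q : ℝ) * ‖L v‖ ≤ m / 2 * ‖v‖ := by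
    have e1 : (q : ℝ) * ‖L v‖ = ‖(q : ℝ) • L v‖ := by
      rw [norm_smul, Real.norm_natCast]
    rw [e1, pi_norm_le_iff_of_nonneg (by positivity)]
    intro i
    rw [Real.norm_eq_abs]
    exact hb i
  have h2 := hK' ⟨v, hv⟩
  rw [← hLj] at h2
  have h3 : ‖v‖ ≤ K * ‖L v‖ := h2
  by_contra hne
  have hv0 : 0 < ‖v‖ := norm_pos_iff.mpr hne
  have h4 : (q : ℝ) * ‖v‖ ≤ K * (m / 2 * ‖v‖) := by
    calc (q : ℝ) * ‖v‖ ≤ q * (K * ‖L v‖) := mul_le_mul_of_nonneg_left h3 hq0.le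
      _ = K * (q * ‖L v‖) := by ring
      _ ≤ K * (m / 2 * ‖v‖) := mul_le_mul_of_nonneg_left hLv hK0.le
  have h5 : (q : ℝ) ≤ K * (m / 2) := by
    have h6 : (q : ℝ) * ‖v‖ ≤ (K * (m / 2)) * ‖v‖ := by
      calc _ ≤ K * (m / 2 * ‖v‖) := h4
        _ = _ := by ring
    exact le_of_mul_le_mul_right h6 hv0
  have h6 : (0 : ℝ) ≤ K * m := by positivity
  linarith

end Pool.Agent.W740.TU
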