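import Mathlib

set_option autoImplicit false

open Filter Topology Set

namespace Pool.Agent.W740.TU

/-- The map `p` is injective on the local unstable sets of some size: there is a neighbourhood `𝒰`
of the diagonal such that `p x ≠ p y` if `x ≠ y` and `f⁻ⁿ x`, `f⁻ⁿ y` are `𝒰`-close for all
`n ≥ 0`. -/
def UnstInj {M Y : Type*} [TopologicalSpace M] (finv : M → M) (p : M → Y) : Prop :=
  ∃ 𝒰 ∈ 𝓝ˢ (diagonal M), ∀ x y : M, (∀ n : ℕ, (finv^[n] x, finv^[n] y) ∈ 𝒰) → p x = p y → x = y

end Pool.Agent.W740.TU
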