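import Pool.Agent.W740.TU.FG

set_option autoImplicit false

open Filter Topology Set Metric

namespace Pool.Agent.W740.TU

/-- Maps from a vector space to the circle lift. -/
theorem lift_vec {E : Type*} [NormedAddCommGroup E] [NormedSpace ℝ E]
    (f : C(E, AddCircle (1 : ℝ))) : ∃ F : C(E, ℝ), ∀ v, ((F v : ℝ) : AddCircle (1 : ℝ)) = f v := by
  have hcov : IsCoveringMap ((↑) : ℝ → AddCircle (1 : ℝ)) := AddCircle.isCoveringMap_coe 1
  obtain ⟨e₀, he₀⟩ : ∃ e₀ : ℝ, ((e₀ : ℝ) : AddCircle (1 : ℝ)) = f 0 :=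
    QuotientAddGroup.mk_surjective _
  obtain ⟨F, ⟨-, hF⟩, -⟩ := hcov.existsUnique_continuousMap_lifts f 0 e₀ he₀
  exact ⟨F, fun v => congrFun hF v⟩

/-- Compact manifolds satisfy the hypothesis of `LL.exists_gen`. -/
theorem exists_LL {X : Type*} [MetricSpace X] [CompactSpace X] {E : Type*} [NormedAddCommGroup E]
    [NormedSpace ℝ E] [ChartedSpace E X] : ∃ lam δ : ℝ, LL X lam δ := by
  classical
  have hlc : LocallyConnectedSpace X := ChartedSpace.locallyConnectedSpace E X
  -- cells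
  have hcell : ∀ x₀ : X, ∃ ψ : OpenPartialHomeomorph E X, ψ.source = univ ∧ x₀ ∈ ψ.target := by
    intro x₀
    set φ := chartAt E x₀ with hφ
    have h1 : φ.target ∈ 𝓝 (φ x₀) := φ.open_target.mem_nhds (φ.map_source (mem_chart_source E x₀))
    obtain ⟨r, hr, hb⟩ := Metric.mem_nhds_iff.mp h1
    refine ⟨(OpenPartialHomeomorph.univBall (φ x₀) r).trans φ.symm, ?_, ?_⟩
    · rw [OpenPartialHomeomorph.trans_source, OpenPartialHomeomorph.univBall_source, univ_inter,
        eq_univ_iff_forall]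
      intro v
      rw [mem_preimage, OpenPartialHomeomorph.symm_source]
      apply hb
      have h2 := (OpenPartialHomeomorph.univBall (φ x₀) r).map_source (x := v) (by
        rw [OpenPartialHomeomorph.univBall_source]; trivial)
      rwa [OpenPartialHomeomorph.univBall_target _ hr] at h2
    · rw [OpenPartialHomeomorph.trans_target, OpenPartialHomeomorph.symm_target,
        OpenPartialHomeomorph.symm_symm]
      refine ⟨mem_chart_source E x₀, ?_⟩
      rw [mem_preimage, OpenPartialHomeomorph.univBall_target _ hr]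
      exact mem_ball_self hr
  choose ψ hψs hψt using hcell
  obtain ⟨lam, hlam, hlam'⟩ := lebesgue_number_lemma_of_metric (isCompact_univ (X := X))
    (c := fun x => (ψ x).target) (fun x => (ψ x).open_target)
    (fun x _ => mem_iUnion.2 ⟨x, hψt x⟩)
  -- connected neighbourhoods
  have hconn : ∀ x₀ : X, ∃ V : Set X, IsOpen V ∧ x₀ ∈ V ∧ IsPreconnected V ∧
      V ⊆ ball x₀ (lam / 4) := by
    intro x₀
    have h1 : ball x₀ (lam / 4) ∈ 𝓝 x₀ := ball_mem_nhds x₀ (by positivity)
    obtain ⟨V, ⟨hVo, hxV, hVc⟩, hVs⟩ := (hlc.open_connected_basis x₀).mem_iff.mp h1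
    exact ⟨V, hVo, hxV, hVc.isPreconnected, hVs⟩
  choose V hVo hVx hVc hVs using hconn
  obtain ⟨δ, hδ, hδ'⟩ := lebesgue_number_lemma_of_metric (isCompact_univ (X := X))
    (c := V) hVo (fun x _ => mem_iUnion.2 ⟨x, hVx x⟩)
  refine ⟨lam, min δ (lam / 2), lt_min hδ (by positivity), min_le_right _ _, ?_, ?_⟩
  · intro x y hxy
    obtain ⟨i, hi⟩ := hδ' x trivial
    have hx : x ∈ V i := hi (mem_ball_self hδ)
    refine ⟨V i, ?_, hVc i, hx, hi ?_⟩
    · intro z hz
      have h1 := hVs i hx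
      have h2 := hVs i hz
      rw [mem_ball] at h1 h2 ⊢
      have := dist_triangle_right z x i
      linarith
    · rw [mem_ball, dist_comm]
      exact hxy.trans_le (min_le_left _ _)
  · intro g x
    obtain ⟨i, hi⟩ := hlam' x trivial
    have hcont : Continuous (ψ i) := by
      have := (ψ i).continuousOn
      rwa [hψs, continuousOn_univ] at this
    obtain ⟨F, hF⟩ := lift_vec (g.comp ⟨ψ i, hcont⟩)
    refine ⟨fun y => F ((ψ i).symm y), ?_, fun y hy => ?_⟩
    · exact F.continuous.comp_continuousOn ((ψ i).symm.continuousOn.mono hi)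
    · show ((F ((ψ i).symm y) : ℝ) : AddCircle (1 : ℝ)) = g y
      rw [hF]
      show g (ψ i ((ψ i).symm y)) = g y
      rw [(ψ i).right_inv (hi hy)]

/-- Generators of the first cohomology, with the matrix of a self-map. -/
theorem exists_phi {X : Type*} [MetricSpace X] [CompactSpace X] [ConnectedSpace X] {E : Type*}
    [NormedAddCommGroup E] [NormedSpace ℝ E] [ChartedSpace E X] (f : C(X, X)) :
    ∃ (k : ℕ) (φ : C(X, Fin k → AddCircle (1 : ℝ))) (A : Matrix (Fin k) (Fin k) ℤ)
      (e : X → Fin k → ℝ), Continuous e ∧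
      (∀ x i, φ (f x) i = ∑ j, A i j • φ x j + ((e x i : ℝ) : AddCircle (1 : ℝ))) ∧
      ∀ g : C(X, AddCircle (1 : ℝ)), ∃ (c : Fin k → ℤ) (e : X → ℝ), Continuous e ∧
        ∀ x, g x = ∑ i, c i • φ x i + ((e x : ℝ) : AddCircle (1 : ℝ)) := by
  obtain ⟨lam, δ, L⟩ := exists_LL (X := X) (E := E)
  obtain ⟨k, φ, hφ⟩ := L.exists_gen
  choose A e he hA using fun i => hφ ((φ i).comp f)
  exact ⟨k, ⟨fun x i => φ i x, continuous_pi fun i => (φ i).continuous⟩, A,
    fun x i => e i x, continuous_pi fun i => he i, fun x i => hA i x, hφ⟩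

end Pool.Agent.W740.TU
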