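import Pool.Agent.W740.TU.Disp
import Pool.Agent.H779R2.An.CChart
import Pool.Agent.H789R2.AN.Hyp
import Pool.Agent.Helper514.IoD

set_option autoImplicit false
set_option linter.unusedSectionVars false

open Filter Topology Set Metric

namespace Pool.Agent.W740.TU

open Pool.Agent.H721R2 Pool.Agent.H789R2.AN Pool.Agent.H779R2.An

theorem isClosed_SR {X : Type*} [MetricSpace X] (g : X ≃ₜ X) (ε : ℝ) :
    IsClosed {q : X × X | SR g ε q.1 q.2} := by
  have h : {q : X × X | SR g ε q.1 q.2} =
      ⋂ k : ℕ, {q : X × X | dist (g^[k] q.1) (g^[k] q.2) ≤ ε} := by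
    ext q
    simp only [mem_iInter]
    rfl
  rw [h]
  refine isClosed_iInter fun k => isClosed_le ?_ continuous_const
  exact ((g.continuous.iterate k).comp continuous_fst).dist
    ((g.continuous.iterate k).comp continuous_snd)

variable {X F : Type*} [MetricSpace X] [CompactSpace X] [NormedAddCommGroup F]
  [InnerProductSpace ℝ F] [FiniteDimensional ℝ F]

/-- Small displacements are realized in the local unstable sets. -/
theorem plaque_surj (S : HypSys X F) {u : ℕ} (hu : ∀ x, Module.finrank ℝ (S.Vu x) = u)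
    (p : X → Fin u → AddCircle (1 : ℝ)) (hp : Continuous p) {ε₂ : ℝ} (hε₂ : 0 < ε₂)
    (hinj : ∀ x y, SR S.g.symm ε₂ x y → p x = p y → x = y) {η : ℝ} (hη : Sc p η) :
    ∃ ε₀ > 0, ∀ ε, 0 < ε → ε ≤ ε₀ → ∃ r > 0, ∀ (x : X) (v : Fin u → ℝ), ‖v‖ ≤ r →
      ∃ y, SR S.g.symm ε x y ∧ dp p x y = v := by
  obtain ⟨ε₁, hε₁, hcon⟩ := contrS_iter S.symm
  refine ⟨min ε₁ (min ε₂ (η / 2)), lt_min hε₁ (lt_min hε₂ (half_pos hη.1)), fun ε hε hle => ?_⟩
  have hle1 : ε ≤ ε₁ := hle.trans (min_le_left _ _)
  have hle2 : ε ≤ ε₂ := hle.trans ((min_le_right _ _).trans (min_le_left _ _))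
  have hle3 : ε ≤ η / 2 := hle.trans ((min_le_right _ _).trans (min_le_right _ _))
  -- the edge
  set K : Set (X × X) := {q | SR S.g.symm ε q.1 q.2} ∩ {q | ε / 2 ≤ dist q.1 q.2} with hK
  have hKc : IsCompact K := by
    apply IsClosed.isCompact
    exact (isClosed_SR _ _).inter (isClosed_le continuous_const (continuous_fst.dist continuous_snd))
  obtain ⟨r₀, hr₀, hr₀'⟩ : ∃ r₀ > 0, ∀ q ∈ K, r₀ ≤ ‖dp p q.1 q.2‖ := by
    rcases K.eq_empty_or_nonempty with hKe | hKn
    · exact ⟨1, one_pos, fun q hq => by rw [hKe] at hq; exact hq.elim⟩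
    · have hcont : ContinuousOn (fun q : X × X => ‖p q.2 - p q.1‖) K := by
        have h1 : Continuous (fun q : X × X => ‖p q.2 - p q.1‖) :=
          ((hp.comp continuous_snd).sub (hp.comp continuous_fst)).norm
        exact h1.continuousOn
      obtain ⟨q₀, hq₀, hmin⟩ := hKc.exists_isMinOn hKn hcont
      refine ⟨‖p q₀.2 - p q₀.1‖, ?_, fun q hq => ?_⟩
      · refine norm_pos_iff.mpr fun h0 => ?_
        have h1 : q₀.1 = q₀.2 := hinj _ _ (hq₀.1.mono hle2) (sub_eq_zero.mp h0).symm
        have h2 : ε / 2 ≤ dist q₀.1 q₀.2 := hq₀.2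
        rw [h1, dist_self] at h2
        linarith
      · rw [dp_norm]
        exact hmin hq
  -- interior points
  have hint : ∀ x y, SR S.g.symm ε x y → ‖dp p x y‖ < r₀ → SR S.g.symm (ε / 2) x y := by
    intro x y hxy hlt k
    have h1 : dist x y < ε / 2 := by
      by_contra hcon
      push Not at hcon
      have h2 := hr₀' (x, y) ⟨hxy, hcon⟩
      exact absurd hlt (not_lt.mpr h2)
    have h2 := hcon x y (fun k => (hxy k).trans hle1) k
    have h3 : ((1 : ℝ) / 2) ^ k ≤ 1 := pow_le_one₀ (by norm_num) (by norm_num)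
    calc dist (S.g.symm^[k] x) (S.g.symm^[k] y) ≤ (1 / 2) ^ k * dist x y := h2
      _ ≤ 1 * dist x y := mul_le_mul_of_nonneg_right h3 dist_nonneg
      _ ≤ ε / 2 := by rw [one_mul]; exact h1.le
  refine ⟨r₀ / 2, half_pos hr₀, fun x v hv => ?_⟩
  set A : Set (Fin u → ℝ) := {v | ∃ y, SR S.g.symm ε x y ∧ dp p x y = v} with hA
  -- closed
  have hAcl : IsClosed A := by
    have h1 : IsCompact {y | SR S.g.symm ε x y} := by
      apply IsClosed.isCompact
      exact (isClosed_SR S.g.symm ε).preimage (Continuous.prodMk_right x)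
    have h2 : A = dp p x '' {y | SR S.g.symm ε x y} := by
      ext w
      constructor
      · rintro ⟨y, h3, h4⟩
        exact ⟨y, h3, h4⟩
      · rintro ⟨y, h3, h4⟩
        exact ⟨y, h3, h4⟩
    rw [h2]
    refine (h1.image_of_continuousOn ((dp_cont p hp hη x).mono fun y hy => ?_)).isClosed
    rw [mem_ball, dist_comm]
    have h3 : dist x y ≤ ε := hy 0
    have := hη.1
    linarith
  -- interior
  have hAo : ∀ w ∈ A, ‖w‖ < r₀ → w ∈ interior A := by
    rintro w ⟨y, hy, rfl⟩ hw
    have hy' := hint x y hy hw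
    obtain ⟨ρ₁, hρ₁, ρ', -, hch⟩ := chart_prop S.symm u hu (ε / 2) (half_pos hε)
    obtain ⟨ψ, hψ, -⟩ := hch y
    let L : EuclideanSpace ℝ (Fin u) ≃L[ℝ] (Fin u → ℝ) := EuclideanSpace.equiv (Fin u) ℝ
    have hrel : ∀ a, ‖a‖ ≤ ρ₁ → SR S.g.symm (ε / 2) y (ψ a) := fun a ha => hψ.rel a ha
    have hball : ∀ a, ‖a‖ ≤ ρ₁ → ψ a ∈ ball y η := by
      intro a ha
      rw [mem_ball, dist_comm]
      have h3 : dist y (ψ a) ≤ ε / 2 := hrel a ha 0
      have := hη.1
      linarith
    have hψc : ContinuousOn ψ (closedBall 0 ρ₁) := by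
      intro a ha
      rw [Metric.continuousWithinAt_iff]
      intro e he
      refine ⟨e / 2, half_pos he, fun {b} hb hba => ?_⟩
      rw [mem_closedBall_zero_iff] at ha hb
      have h1 := hψ.le b a hb ha
      rw [dist_eq_norm] at hba
      linarith
    have hFc : ContinuousOn (fun a => L.symm (dp p y (ψ a))) (closedBall 0 ρ₁) := by
      refine L.symm.continuous.comp_continuousOn ((dp_cont p hp hη y).comp hψc fun a ha => ?_)
      exact hball a (mem_closedBall_zero_iff.mp ha)
    have hFi : InjOn (fun a => L.symm (dp p y (ψ a))) (closedBall 0 ρ₁) := by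
      intro a ha b hb hab
      rw [mem_closedBall_zero_iff] at ha hb
      have h1 : dp p y (ψ a) = dp p y (ψ b) := L.symm.injective hab
      have h2 : p (ψ a) = p (ψ b) := by
        funext i
        have h3 := dp_coe p y (ψ a) i
        have h4 := dp_coe p y (ψ b) i
        rw [h1, h4] at h3
        exact (sub_left_inj.mp h3).symm
      have h3 : SR S.g.symm ε₂ (ψ a) (ψ b) := by
        intro k
        have h4 := hrel a ha k
        have h5 := hrel b hb k
        have h6 := dist_triangle_left (S.g.symm^[k] (ψ a)) (S.g.symm^[k] (ψ b)) (S.g.symm^[k] y)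
        linarith
      have h4 := hinj _ _ h3 h2
      have h5 := hψ.ge a b ha hb
      rw [h4, dist_self, mul_zero] at h5
      exact sub_eq_zero.mp (norm_le_zero_iff.mp h5)
    have h1 := Helper514.IoD.image_mem_nhds (fun a => L.symm (dp p y (ψ a))) 0 ρ₁ hρ₁ hFc hFi
    have h0 : L.symm (dp p y (ψ 0)) = 0 := by rw [hψ.zero, dp_self, map_zero]
    rw [h0] at h1
    rw [mem_interior_iff_mem_nhds]
    have h2 : Tendsto (fun w' : Fin u → ℝ => L.symm (w' - dp p x y)) (𝓝 (dp p x y)) (𝓝 0) := by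
      have h3 : Continuous (fun w' : Fin u → ℝ => L.symm (w' - dp p x y)) :=
        L.symm.continuous.comp (continuous_id.sub continuous_const)
      have h4 := h3.tendsto (dp p x y)
      rwa [sub_self, map_zero] at h4
    filter_upwards [h2 h1] with w' hw'
    obtain ⟨a, ha, haw⟩ := hw'
    rw [mem_closedBall_zero_iff] at ha
    have h3 : dp p y (ψ a) = w' - dp p x y := L.symm.injective haw
    refine ⟨ψ a, ?_, ?_⟩
    · intro k
      have h4 := hy' k
      have h5 := hrel a ha k
      have h6 := dist_triangle (S.g.symm^[k] x) (S.g.symm^[k] y) (S.g.symm^[k] (ψ a))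
      linarith
    · have h4 := hη.2 x y (by
        have h5 : dist x y ≤ ε / 2 := hy' 0
        have := hη.1
        linarith)
      have h5 := hη.2 y (ψ a) (by rw [dist_comm, ← mem_ball]; exact hball a ha)
      rw [dp_add p (y := y) (h4.trans (by norm_num)) (h5.trans (by norm_num)), h3]
      abel
  -- connectedness of the ball
  have hconn : IsPreconnected (ball (0 : Fin u → ℝ) r₀) := (convex_ball 0 r₀).isPreconnected
  have hsub : ball (0 : Fin u → ℝ) r₀ ⊆ interior A := by
    refine hconn.subset_left_of_subset_union isOpen_interior hAcl.isOpen_compl ?_ ?_ ?_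
    · rw [Set.disjoint_left]
      exact fun w hw hw' => hw' (interior_subset hw)
    · intro w hw
      by_cases hwA : w ∈ A
      · exact Or.inl (hAo w hwA (by rwa [mem_ball_zero_iff] at hw))
      · exact Or.inr hwA
    · refine ⟨0, mem_ball_self hr₀, hAo 0 ⟨x, fun k => ?_, dp_self p x⟩ (by rwa [norm_zero])⟩
      rw [dist_self]
      exact hε.le
  have hvb : v ∈ ball (0 : Fin u → ℝ) r₀ := by
    rw [mem_ball_zero_iff]
    linarith
  have hvA : v ∈ A := interior_subset (hsub hvb)
  exact hvA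

end Pool.Agent.W740.TU
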