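import Pool.Agent.W740.TU.Act
import Pool.Agent.W740.TU.Loc
import Pool.Agent.W740.TU.FGM
import Pool.Agent.W740.TU.Def
import Pool.Agent.W740.TC.Main

set_option autoImplicit false
set_option linter.unusedSectionVars false

open Filter Topology Set Metric
open scoped Manifold ContDiff

namespace Pool.Agent.W740.TU

open Pool.Agent.H721R2 Pool.Agent.H789R2.AN Pool.Agent.H789R2.GP Pool.Agent.W740.TC
open Pool.Agent.H779R2.To (IsToral)

section abs

open unitInterval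

variable {X : Type*} [MetricSpace X] [CompactSpace X]

theorem symm_pow {f g : X ≃ₜ X} {N : ℕ} (hg : ∀ x, g x = f^[N] x) (q : ℕ) (z : X) :
    f.symm^[N * q] z = g.symm^[q] z := by
  induction q generalizing z with
  | zero => rfl
  | succ q ih =>
    have e2 : g.symm z = f.symm^[N] z := by
      apply g.injective
      rw [g.apply_symm_apply, hg, iterR]
    rw [Nat.mul_succ, Function.iterate_add_apply f.symm, ← e2, ih]
    rfl

/-- Injectivity in the metric form. -/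
theorem metric_inj {f g : X ≃ₜ X} {N : ℕ} (hN : 1 ≤ N) (hg : ∀ x, g x = f^[N] x) {Y : Type*}
    {p : X → Y} (hp : UnstInj f.symm p) :
    ∃ ε₂ > 0, ∀ x y, SR g.symm ε₂ x y → p x = p y → x = y := by
  obtain ⟨𝒰, h𝒰, h1⟩ := hp
  rw [nhdsSet_diagonal_eq_uniformity, Metric.mem_uniformity_dist] at h𝒰
  obtain ⟨ε, hε, h2⟩ := h𝒰
  obtain ⟨δ, hδ, h3⟩ := T1_unif f.symm N hε
  refine ⟨δ / 2, half_pos hδ, fun x y hxy hpxy => h1 x y (fun n => h2 ?_) hpxy⟩
  have hn : n = n % N + N * (n / N) := (Nat.mod_add_div n N).symm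
  rw [hn, Function.iterate_add_apply, Function.iterate_add_apply, symm_pow hg, symm_pow hg]
  exact h3 _ (Nat.mod_lt _ (by omega)).le _ _ (lt_of_le_of_lt (hxy _) (half_lt_self hδ))

/-- A linear bound for the number of steps gives polynomial properness. -/
theorem poly_of_bound {f g : X ≃ₜ X} {N : ℕ} (hN : 1 ≤ N) (hg : ∀ x, g x = f^[N] x) {k : ℕ}
    {φ : X → Fin k → AddCircle (1 : ℝ)} {C : ℝ} (hC : 0 < C)
    (h : ∀ (γ : C(I, X)) (θ : C(I, Fin k → ℝ)), UnstablePath f.symm γ →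
      (∀ t i, ((θ t i : ℝ) : AddCircle (1 : ℝ)) = φ (γ t) i) →
      ∀ q : ℕ, dist (g.symm^[q] (γ 0)) (g.symm^[q] (γ 1)) ≤
        C * (1 + ‖θ 1 - θ 0‖) * (1 / 2) ^ q) : PolyDisp f.symm φ := by
  intro 𝒰 h𝒰
  rw [nhdsSet_diagonal_eq_uniformity, Metric.mem_uniformity_dist] at h𝒰
  obtain ⟨ε, hε, h2⟩ := h𝒰
  obtain ⟨δ, hδ, h3⟩ := T1_unif f.symm N hε
  have hl2 : 0 < Real.log 2 := Real.log_pos (by norm_num)
  have hN0 : (0 : ℝ) < N := by exact_mod_cast hN
  refine ⟨N / Real.log 2, N * (Real.log (2 * C / δ) / Real.log 2 + 1), fun γ θ hγ hθ n hn => ?_⟩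
  apply h2
  have hnn : n = n % N + N * (n / N) := (Nat.mod_add_div n N).symm
  rw [hnn, Function.iterate_add_apply, Function.iterate_add_apply, symm_pow hg, symm_pow hg]
  refine h3 _ (Nat.mod_lt _ (by omega)).le _ _ ?_
  refine lt_of_le_of_lt (h γ θ hγ hθ (n / N)) ?_
  set D := ‖θ 1 - θ 0‖ with hD
  have hD0 : 0 ≤ D := norm_nonneg _
  set q := n / N with hq
  have hq1 : (n : ℝ) ≤ N * (q + 1) := by
    have h4 : n < N * (q + 1) := by
      have h5 := Nat.mod_lt n (show N > 0 by omega)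
      have h6 : N * (q + 1) = N * q + N := by ring
      omega
    have h5 : ((n : ℕ) : ℝ) ≤ ((N * (q + 1) : ℕ) : ℝ) := by exact_mod_cast h4.le
    push_cast at h5
    exact h5
  -- `log (1 + D) + log (2 C / δ) ≤ q log 2`
  have h4 : Real.log (1 + D) + Real.log (2 * C / δ) ≤ q * Real.log 2 := by
    have h5 : N / Real.log 2 * Real.log (1 + D) + N * (Real.log (2 * C / δ) / Real.log 2 + 1) ≤
        N * (q + 1) := hn.trans hq1
    have h6 : N / Real.log 2 * Real.log (1 + D) + N * (Real.log (2 * C / δ) / Real.log 2 + 1) =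
        N * ((Real.log (1 + D) + Real.log (2 * C / δ)) / Real.log 2 + 1) := by
      field_simp
      ring
    rw [h6] at h5
    have h7 := le_of_mul_le_mul_left h5 hN0
    have h8 : (Real.log (1 + D) + Real.log (2 * C / δ)) / Real.log 2 ≤ q := by linarith
    rwa [div_le_iff₀ hl2] at h8
  have h5 : (1 + D) * (2 * C / δ) ≤ 2 ^ q := by
    have e1 : 0 < (1 + D) * (2 * C / δ) := by positivity
    rw [← Real.log_le_log_iff e1 (by positivity), Real.log_pow,
      Real.log_mul (by positivity) (by positivity)]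
    exact h4
  have hpq : (0 : ℝ) < 2 ^ q := by positivity
  have h6 : C * (1 + D) * (1 / 2) ^ q * 2 ≤ δ := by
    have e1 : (1 + D) * (2 * C / δ) * (1 / 2) ^ q ≤ 1 := by
      calc (1 + D) * (2 * C / δ) * (1 / 2) ^ q ≤ 2 ^ q * (1 / 2) ^ q :=
            mul_le_mul_of_nonneg_right h5 (by positivity)
        _ = 1 := by rw [← mul_pow]; norm_num
    have e2 : C * (1 + D) * (1 / 2) ^ q * 2 = (1 + D) * (2 * C / δ) * (1 / 2) ^ q * δ := by
      field_simp
    rw [e2]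
    calc _ ≤ 1 * δ := mul_le_mul_of_nonneg_right e1 hδ.le
      _ = δ := one_mul δ
  have h7 : 0 < C * (1 + D) * (1 / 2) ^ q := by positivity
  linarith

/-- Translations give the bound. -/
theorem bound_of_ac {f g : X ≃ₜ X} {N : ℕ} (hg : ∀ x, g x = f^[N] x) {c : ℝ} (h : LP g c)
    {u : ℕ} {p : X → Fin u → AddCircle (1 : ℝ)} {ε r : ℝ} (H : Ac g p ε r) (hε : 0 < ε)
    (hεc : ε ≤ c) {k : ℕ} {φ : X → Fin k → AddCircle (1 : ℝ)} (cc : Fin u → Fin k → ℤ)
    (e : Fin u → X → ℝ) (he : ∀ i, Continuous (e i))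
    (hp : ∀ i x, p x i = ∑ j, cc i j • φ x j + ((e i x : ℝ) : AddCircle (1 : ℝ))) :
    ∃ C > 0, ∀ (γ : C(I, X)) (θ : C(I, Fin k → ℝ)), UnstablePath f.symm γ →
      (∀ t i, ((θ t i : ℝ) : AddCircle (1 : ℝ)) = φ (γ t) i) →
      ∀ q : ℕ, dist (g.symm^[q] (γ 0)) (g.symm^[q] (γ 1)) ≤
        C * (1 + ‖θ 1 - θ 0‖) * (1 / 2) ^ q := by
  have hr := H.r_pos
  have hc := h.c_pos
  set C₁ : ℝ := ∑ i, ∑ j, |(cc i j : ℝ)| with hC₁
  have hC₁0 : 0 ≤ C₁ := Finset.sum_nonneg fun i _ => Finset.sum_nonneg fun j _ => abs_nonneg _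
  obtain ⟨K, hK0, hK⟩ : ∃ K : ℝ, 0 ≤ K ∧ ∀ x, ‖fun i => e i x‖ ≤ K := by
    rcases isEmpty_or_nonempty X with hX | hX
    · exact ⟨0, le_rfl, fun x => (hX.false x).elim⟩
    · have hcont : Continuous (fun x => ‖fun i => e i x‖) := (continuous_pi he).norm
      obtain ⟨x, hx⟩ := hcont.exists_forall_ge' (x₀ := Classical.arbitrary X) (by
        rw [Filter.cocompact_eq_bot]; exact Filter.eventually_bot)
      exact ⟨_, norm_nonneg _, hx⟩
  refine ⟨c * ((C₁ + 2 * K) / r + 2), by positivity, fun γ θ hγ hθ q => ?_⟩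
  let θp : C(I, Fin u → ℝ) := ⟨fun t i => ∑ j, (cc i j : ℝ) * θ t j + e i (γ t), by
    refine continuous_pi fun i => ?_
    refine (continuous_finsetSum _ fun j _ => ?_).add ((he i).comp γ.continuous)
    exact continuous_const.mul ((continuous_apply j).comp θ.continuous)⟩
  have hθp : ∀ t i, ((θp t i : ℝ) : AddCircle (1 : ℝ)) = p (γ t) i := by
    intro t i
    show ((∑ j, (cc i j : ℝ) * θ t j + e i (γ t) : ℝ) : AddCircle (1 : ℝ)) = _
    rw [hp, AddCircle.coe_add]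
    congr 1
    have h4 : ((∑ j, (cc i j : ℝ) * θ t j : ℝ) : AddCircle (1 : ℝ)) =
        ∑ j, (((cc i j : ℝ) * θ t j : ℝ) : AddCircle (1 : ℝ)) :=
      map_sum (QuotientAddGroup.mk' (AddSubgroup.zmultiples (1 : ℝ))) _ _
    rw [h4]
    refine Finset.sum_congr rfl fun j _ => ?_
    rw [← zsmul_eq_mul, AddCircle.coe_zsmul, hθ]
  set D := ‖θ 1 - θ 0‖ with hD
  have hD0 : 0 ≤ D := norm_nonneg _
  have hDp : ‖θp 1 - θp 0‖ ≤ C₁ * D + 2 * K := by
    have e1 : θp 1 - θp 0 = (fun i => ∑ j, (cc i j : ℝ) * (θ 1 - θ 0) j) +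
        ((fun i => e i (γ 1)) - (fun i => e i (γ 0))) := by
      funext i
      show (∑ j, (cc i j : ℝ) * θ 1 j + e i (γ 1)) - (∑ j, (cc i j : ℝ) * θ 0 j + e i (γ 0)) =
        ∑ j, (cc i j : ℝ) * (θ 1 j - θ 0 j) + (e i (γ 1) - e i (γ 0))
      simp only [mul_sub, Finset.sum_sub_distrib]
      ring
    have e2 : ‖fun i => ∑ j, (cc i j : ℝ) * (θ 1 - θ 0) j‖ ≤ C₁ * D := by
      rw [pi_norm_le_iff_of_nonneg (by positivity)]
      intro i
      calc ‖∑ j, (cc i j : ℝ) * (θ 1 - θ 0) j‖ ≤ ∑ j, ‖(cc i j : ℝ) * (θ 1 - θ 0) j‖ :=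
            norm_sum_le _ _
        _ ≤ ∑ j, |(cc i j : ℝ)| * D := by
            refine Finset.sum_le_sum fun j _ => ?_
            rw [norm_mul, Real.norm_eq_abs]
            exact mul_le_mul_of_nonneg_left (norm_le_pi_norm _ j) (abs_nonneg _)
        _ = (∑ j, |(cc i j : ℝ)|) * D := by rw [Finset.sum_mul]
        _ ≤ C₁ * D := by
            refine mul_le_mul_of_nonneg_right ?_ hD0
            exact Finset.single_le_sum (f := fun i => ∑ j, |(cc i j : ℝ)|)
              (fun i _ => Finset.sum_nonneg fun j _ => abs_nonneg _) (Finset.mem_univ i)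
    rw [e1]
    have e3 := norm_add_le (fun i => ∑ j, (cc i j : ℝ) * (θ 1 - θ 0) j)
      ((fun i => e i (γ 1)) - (fun i => e i (γ 0)))
    have e4 := norm_sub_le (fun i => e i (γ 1)) (fun i => e i (γ 0))
    have e5 := hK (γ 1)
    have e6 := hK (γ 0)
    linarith
  obtain ⟨m₀, hm₀⟩ := H.path hg hε γ θp hγ hθp
  set m₁ : ℕ := ⌈‖θp 1 - θp 0‖ / r⌉₊ + 1 with hm₁
  have hm₁1 : 1 ≤ m₁ := by omega
  have hm₁r : ‖θp 1 - θp 0‖ ≤ m₁ * r := by
    have h5 := Nat.le_ceil (‖θp 1 - θp 0‖ / r)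
    rw [div_le_iff₀ hr] at h5
    rw [hm₁]
    push_cast
    nlinarith
  have hm₁u : (m₁ : ℝ) ≤ ‖θp 1 - θp 0‖ / r + 2 := by
    have h5 := (Nat.ceil_lt_add_one (show 0 ≤ ‖θp 1 - θp 0‖ / r by positivity)).le
    rw [hm₁]
    push_cast
    linarith
  have h5 : γ 1 = H.P m₁ (θp 1 - θp 0) (γ 0) := by
    rw [hm₀ (max m₀ m₁) (le_max_left _ _) (hm₁1.trans (le_max_right _ _))]
    refine H.P_indep (hm₁1.trans (le_max_right _ _)) hm₁1 ?_ hm₁r _
    refine hm₁r.trans (mul_le_mul_of_nonneg_right ?_ hr.le)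
    exact_mod_cast le_max_right m₀ m₁
  have h6 := H.P_dist h hεc hm₁1 hm₁r (γ 0) q
  rw [← h5] at h6
  refine h6.trans ?_
  have h7 : (m₁ : ℝ) ≤ ((C₁ + 2 * K) / r + 2) * (1 + D) := by
    have e1 : ‖θp 1 - θp 0‖ / r ≤ (C₁ * D + 2 * K) / r := div_le_div_of_nonneg_right hDp hr.le
    have e2 : (C₁ * D + 2 * K) / r ≤ (C₁ + 2 * K) / r * (1 + D) := by
      rw [div_mul_eq_mul_div]
      refine div_le_div_of_nonneg_right ?_ hr.le
      nlinarith [mul_nonneg hK0 hD0]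
    nlinarith
  have h8 : (0 : ℝ) ≤ (1 / 2) ^ q := by positivity
  calc (m₁ : ℝ) * (c * (1 / 2) ^ q) ≤ (((C₁ + 2 * K) / r + 2) * (1 + D)) * (c * (1 / 2) ^ q) :=
        mul_le_mul_of_nonneg_right h7 (by positivity)
    _ = _ := by ring

end abs

section manifold

variable {E : Type*} [NormedAddCommGroup E] [NormedSpace ℝ E] [FiniteDimensional ℝ E]
  {M : Type*} [TopologicalSpace M] [T2Space M] [CompactSpace M] [ConnectedSpace M]
  [ChartedSpace E M] [IsManifold 𝓘(ℝ, E) ∞ M]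

/-- **Main theorem.** -/
theorem man_locinj (f : Diffeomorph 𝓘(ℝ, E) 𝓘(ℝ, E) M M 1)
    (Es Eu : ∀ x : M, Submodule ℝ (TangentSpace 𝓘(ℝ, E) x)) (hA : IsAnosov f Es Eu)
    {u : ℕ} (hu : ∀ x, Module.finrank ℝ (Eu x) = u)
    (p : M → Fin u → AddCircle (1 : ℝ)) (hp : Continuous p) (hinj : UnstInj f.symm p) :
    TopTransitive f ∧ IsToral f ∧
      (∃ q : E → M, IsCoveringMap q ∧ Function.Surjective q) ∧ Dense (Function.periodicPts f) := by
  have key : ∃ (k : ℕ) (φ : M → Fin k → AddCircle (1 : ℝ)) (A : Matrix (Fin k) (Fin k) ℤ)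
      (e : M → Fin k → ℝ), Continuous φ ∧ Continuous e ∧
      (∀ x i, φ (f x) i = ∑ j, A i j • φ x j + ((e x i : ℝ) : AddCircle (1 : ℝ))) ∧
      PolyDisp f.symm φ := by
    obtain ⟨m, ee, hee, hemb, hinje⟩ :=
      exists_embedding_euclidean_of_compact (I := 𝓘(ℝ, E)) (M := M)
    let _ : MetricSpace M := hemb.isEmbedding.comapMetricSpace ee
    have hiso : ∀ x y : M, dist x y = ‖ee x - ee y‖ := fun x y => dist_eq_norm (ee x) (ee y)
    have he1 : ContMDiff 𝓘(ℝ, E) (𝓡 m) 1 ee := hee.of_le (by simp)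
    obtain ⟨N, S, hN1, hg, hSe, hVs, hVu⟩ := exists_sys_ge hiso he1 hinje f Es Eu hA 1
    have hgi : ∀ x, S.g x = (f.toHomeomorph)^[N] x := fun x => by rw [hg]; rfl
    have hfin : ∀ (x : M) (V : Submodule ℝ E),
        Module.finrank ℝ (V.map (dm E ee x).toLinearMap) = Module.finrank ℝ V := fun x V =>
      (LinearEquiv.finrank_eq
        (Submodule.equivMapOfInjective (dm E ee x).toLinearMap (hinje x) V)).symm
    have hfu : ∀ x, Module.finrank ℝ (S.Vu x) = u := fun x => by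
      rw [hVu]
      exact (hfin x (Eu x)).trans (hu x)
    obtain ⟨c, h⟩ := exists_LP S
    obtain ⟨η, hη⟩ := exists_sc p hp
    obtain ⟨ε₂, hε₂, hinj'⟩ := metric_inj (f := f.toHomeomorph) hN1 hgi hinj
    obtain ⟨ε₀, hε₀, hsurj⟩ := plaque_surj S hfu p hp hε₂ hinj' hη
    set ε := min ε₀ (min (ε₂ / 3) (min c (η / 2))) with hε
    have hεp : 0 < ε := lt_min hε₀ (lt_min (by positivity) (lt_min h.c_pos (half_pos hη.1)))
    have l1 : ε ≤ ε₀ := min_le_left _ _
    have l2 : ε ≤ ε₂ / 3 := (min_le_right _ _).trans (min_le_left _ _)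
    have l3 : ε ≤ c := (min_le_right _ _).trans ((min_le_right _ _).trans (min_le_left _ _))
    have l4 : ε ≤ η / 2 := (min_le_right _ _).trans ((min_le_right _ _).trans (min_le_right _ _))
    obtain ⟨r, hr, hex⟩ := hsurj ε hεp l1
    have H : Ac S.g p ε r := {
      r_pos := hr
      ex := hex
      inj := fun x y hxy => hinj' x y (hxy.mono (by linarith))
      sm := fun x y hxy => (hη.2 x y (by have := hη.1; linarith)).trans (by norm_num) }
    obtain ⟨k, φ, A, e, he, hφf, hgen⟩ := exists_phi (X := M) (E := E) ⟨f, f.continuous⟩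
    choose cc ep hep hpp using fun i => hgen ⟨fun x => p x i, (continuous_apply i).comp hp⟩
    obtain ⟨C, hC, hb⟩ := bound_of_ac (f := f.toHomeomorph) hgi h H hεp l3 (φ := φ) cc ep hep hpp
    exact ⟨k, φ, A, e, φ.continuous, he, hφf, poly_of_bound (f := f.toHomeomorph) hN1 hgi hC hb⟩
  obtain ⟨k, φ, A, e, hφ, he, hφf, hU⟩ := key
  exact man_poly f Es Eu hA φ hφ A e he hφf hU

end manifold

end Pool.Agent.W740.TU
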