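import Pool.Agent.W740.TU.ConvL
import Pool.Agent.W740.TU.Fin

set_option autoImplicit false
set_option linter.unusedSectionVars false

open Filter Topology Set Metric
open scoped Manifold ContDiff

namespace Pool.Agent.W740.TU

open Pool.Agent.H721R2 Pool.Agent.H789R2.AN Pool.Agent.H789R2.GP Pool.Agent.W740.TC
open Pool.Agent.H779R2.To (IsToral HypMat)

section abs

variable {X : Type*} [TopologicalSpace X]

/-- the inverse of a toral map in coordinates -/
theorem inv_coord (f : X ≃ₜ X) {m : ℕ} (A : Matrix (Fin m) (Fin m) ℤ)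
    (h : X → (Fin m → AddCircle (1 : ℝ))) (hdet : IsUnit A.det)
    (hf : ∀ x i, h (f x) i = ∑ j, A i j • h x j) (x : X) (i : Fin m) :
    h (f.symm x) i = ∑ j, A⁻¹ i j • h x j := by
  have h1 : ∀ j, h x j = ∑ k, A j k • h (f.symm x) k := by
    intro j
    have := hf (f.symm x) j
    rwa [f.apply_symm_apply] at this
  have h2 : ∑ j, A⁻¹ i j • h x j = ∑ k, (∑ j, A⁻¹ i j * A j k) • h (f.symm x) k := by
    simp only [h1, Finset.smul_sum, Finset.sum_smul, smul_smul]
    rw [Finset.sum_comm]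
  rw [h2]
  have h3 : ∀ k, ∑ j, A⁻¹ i j * A j k = (1 : Matrix (Fin m) (Fin m) ℤ) i k := by
    intro k
    rw [← Matrix.nonsing_inv_mul A hdet, Matrix.mul_apply]
  simp only [h3]
  rw [Finset.sum_eq_single i]
  · rw [Matrix.one_apply_eq, one_smul]
  · intro k _ hk
    rw [Matrix.one_apply_ne (Ne.symm hk), zero_smul]
  · intro hi
    exact absurd (Finset.mem_univ i) hi

/-- backward iterates of translated points -/
theorem back_coord (f : X ≃ₜ X) {m : ℕ} (A : Matrix (Fin m) (Fin m) ℤ)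
    (h : X → (Fin m → AddCircle (1 : ℝ))) (hdet : IsUnit A.det)
    (hf : ∀ x i, h (f x) i = ∑ j, A i j • h x j) (n : ℕ) {x y : X} {v : Fin m → ℝ}
    (hv : ∀ i, h y i = h x i + ((v i : ℝ) : AddCircle (1 : ℝ))) (i : Fin m) :
    h (f.symm^[n] y) i = h (f.symm^[n] x) i + (((am A⁻¹)^[n] v i : ℝ) : AddCircle (1 : ℝ)) := by
  induction n generalizing x y v with
  | zero => exact hv i
  | succ n ih =>
    rw [Function.iterate_succ_apply, Function.iterate_succ_apply, Function.iterate_succ_apply]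
    refine ih (fun i => ?_)
    rw [inv_coord f A h hdet hf, inv_coord f A h hdet hf, coe_am, ← Finset.sum_add_distrib]
    refine Finset.sum_congr rfl fun j _ => ?_
    rw [hv, smul_add]

end abs

section manifold

variable {E : Type*} [NormedAddCommGroup E] [NormedSpace ℝ E] [FiniteDimensional ℝ E]
  {M : Type*} [TopologicalSpace M] [T2Space M] [CompactSpace M] [ConnectedSpace M]
  [ChartedSpace E M] [IsManifold 𝓘(ℝ, E) ∞ M]

/-- The dimension of the expanding subspace is at most that of the unstable bundle. -/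
theorem dim_le (f : Diffeomorph 𝓘(ℝ, E) 𝓘(ℝ, E) M M 1)
    (Es Eu : ∀ x : M, Submodule ℝ (TangentSpace 𝓘(ℝ, E) x)) (hAn : IsAnosov f Es Eu)
    {u : ℕ} (hu : ∀ x, Module.finrank ℝ (Eu x) = u) {m : ℕ} (A : Matrix (Fin m) (Fin m) ℤ)
    (h : M ≃ₜ (Fin m → AddCircle (1 : ℝ))) (hdet : IsUnit A.det)
    (hf : ∀ x i, h (f x) i = ∑ j, A i j • h x j) : Module.finrank ℝ (WR A) ≤ u := by
  obtain ⟨m', ee, hee, hemb, hinje⟩ :=
    exists_embedding_euclidean_of_compact (I := 𝓘(ℝ, E)) (M := M)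
  let _ : MetricSpace M := hemb.isEmbedding.comapMetricSpace ee
  have hiso : ∀ x y : M, dist x y = ‖ee x - ee y‖ := fun x y => dist_eq_norm (ee x) (ee y)
  have he1 : ContMDiff 𝓘(ℝ, E) (𝓡 m') 1 ee := hee.of_le (by simp)
  obtain ⟨N, S, hN1, hg, hSe, hVs, hVu⟩ := exists_sys_ge hiso he1 hinje f Es Eu hAn 1
  have hgi : ∀ x, S.g x = (f.toHomeomorph)^[N] x := fun x => by rw [hg]; rfl
  have hfin : ∀ (x : M) (V : Submodule ℝ E),
      Module.finrank ℝ (V.map (dm E ee x).toLinearMap) = Module.finrank ℝ V := fun x V =>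
    (LinearEquiv.finrank_eq
      (Submodule.equivMapOfInjective (dm E ee x).toLinearMap (hinje x) V)).symm
  have hfu : ∀ x, Module.finrank ℝ (S.Vu x) = u := fun x => by
    rw [hVu]
    exact (hfin x (Eu x)).trans (hu x)
  obtain ⟨x₀⟩ : Nonempty M := inferInstance
  obtain ⟨ρ₁, hρ₁, ρ', hρ', hch⟩ := Pool.Agent.H779R2.An.chart_prop S.symm u hfu 1 one_pos
  obtain ⟨ψ, hψ, hψ'⟩ := hch x₀
  obtain ⟨C, l, hC, hl, hl', hcontr⟩ := WR_contr A A⁻¹ (Matrix.nonsing_inv_mul A hdet)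
  have huc : UniformContinuous h.symm :=
    CompactSpace.uniformContinuous_of_continuous h.symm.continuous
  obtain ⟨δ₁, hδ₁, hδ'⟩ := Metric.uniformContinuous_iff.mp huc ρ' hρ'
  set δ : ℝ := min (δ₁ / C) (1 / 4) with hδd
  have hδ : 0 < δ := lt_min (by positivity) (by norm_num)
  let y : WR A → M := fun v => h.symm (fun i => h x₀ i + (((v : Fin m → ℝ) i : ℝ) :
    AddCircle (1 : ℝ)))
  have hy : ∀ (v : WR A) i, h (y v) i = h x₀ i + (((v : Fin m → ℝ) i : ℝ) : AddCircle (1 : ℝ)) := by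
    intro v i
    show h (h.symm _) i = _
    rw [h.apply_symm_apply]
  have hyc : Continuous y := by
    refine h.symm.continuous.comp (continuous_pi fun i => continuous_const.add ?_)
    exact (AddCircle.continuous_mk' (1 : ℝ)).comp
      ((continuous_apply i).comp continuous_subtype_val)
  have hrel : ∀ v : WR A, ‖v‖ < δ → S.symm.SRel ρ' x₀ (y v) := by
    intro v hv k
    show dist (S.g.symm^[k] x₀) (S.g.symm^[k] (y v)) ≤ ρ'
    rw [← symm_pow hgi k, ← symm_pow hgi k]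
    have h1 : ∀ i, h (f.toHomeomorph.symm^[N * k] (y v)) i =
        h (f.toHomeomorph.symm^[N * k] x₀) i +
          (((am A⁻¹)^[N * k] (v : Fin m → ℝ) i : ℝ) : AddCircle (1 : ℝ)) :=
      fun i => back_coord f.toHomeomorph A h hdet hf (N * k) (hy v) i
    rw [← h.symm_apply_apply (f.toHomeomorph.symm^[N * k] x₀),
      ← h.symm_apply_apply (f.toHomeomorph.symm^[N * k] (y v))]
    refine (hδ' ?_).le
    rw [dist_comm, dist_eq_norm]
    have h2 : ‖(am A⁻¹)^[N * k] (v : Fin m → ℝ)‖ < δ₁ := by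
      have h3 := hcontr v v.2 (N * k)
      have h4 : l ^ (N * k) ≤ 1 := pow_le_one₀ hl hl'.le
      have h5 : ‖(v : Fin m → ℝ)‖ < δ₁ / C := hv.trans_le (min_le_left _ _)
      rw [lt_div_iff₀ (by linarith)] at h5
      calc ‖(am A⁻¹)^[N * k] (v : Fin m → ℝ)‖ ≤ C * l ^ (N * k) * ‖(v : Fin m → ℝ)‖ := h3
        _ ≤ C * 1 * ‖(v : Fin m → ℝ)‖ := by
            refine mul_le_mul_of_nonneg_right ?_ (norm_nonneg _)
            exact mul_le_mul_of_nonneg_left h4 (by linarith)
        _ < δ₁ := by linarith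
    refine lt_of_le_of_lt ?_ h2
    rw [pi_norm_le_iff_of_nonneg (norm_nonneg _)]
    intro i
    rw [Pi.sub_apply, h1, add_sub_cancel_left]
    exact (QuotientAddGroup.norm_mk_le_norm).trans (norm_le_pi_norm _ i)
  have hb : ∀ v : WR A, ∃ b, ‖v‖ < δ → ‖b‖ ≤ ρ₁ / 4 ∧ ψ b = y v := by
    intro v
    by_cases hv : ‖v‖ < δ
    · obtain ⟨b, h1, h2⟩ := hψ' (y v) (hrel v hv)
      exact ⟨b, fun _ => ⟨h1, h2⟩⟩
    · exact ⟨0, fun h1 => absurd h1 hv⟩
  choose b hb using hb
  have hbn : ∀ v : WR A, ‖v‖ < δ → ‖b v‖ ≤ ρ₁ := fun v hv => by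
    have := (hb v hv).1
    linarith
  have key := Pool.Agent.W964.LieExp.finrank_le_of_injOn (ball (0 : WR A) δ) isOpen_ball 0
    (mem_ball_self hδ) b ?_ ?_
  · rw [finrank_euclideanSpace_fin] at key
    exact key
  · intro v hv
    rw [mem_ball_zero_iff] at hv
    rw [Metric.continuousWithinAt_iff]
    intro ε hε
    obtain ⟨r, hr, h1⟩ := Metric.continuous_iff.mp hyc v (ε / 2) (half_pos hε)
    refine ⟨r, hr, fun {w} hw hwv => ?_⟩
    rw [mem_ball_zero_iff] at hw
    have h2 := h1 w hwv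
    have h3 := hψ.ge (b w) (b v) (hbn w hw) (hbn v hv)
    rw [(hb w hw).2, (hb v hv).2] at h3
    rw [dist_eq_norm]
    linarith
  · intro v hv w hw hvw
    rw [mem_ball_zero_iff] at hv hw
    have h1 : y v = y w := by rw [← (hb v hv).2, ← (hb w hw).2, hvw]
    have h2 : ∀ i, (((v : Fin m → ℝ) i : ℝ) : AddCircle (1 : ℝ)) =
        (((w : Fin m → ℝ) i : ℝ) : AddCircle (1 : ℝ)) := by
      intro i
      have h3 := hy v i
      rw [h1, hy w i] at h3
      exact (add_left_cancel h3).symm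
    apply Subtype.ext
    funext i
    have h3 : ∀ z : WR A, ‖z‖ < δ → |(z : Fin m → ℝ) i| < 1 / 2 := by
      intro z hz
      have h4 : ‖(z : Fin m → ℝ) i‖ ≤ ‖(z : Fin m → ℝ)‖ := norm_le_pi_norm _ i
      have h5 : ‖(z : Fin m → ℝ)‖ < 1 / 4 := hz.trans_le (min_le_right _ _)
      rw [Real.norm_eq_abs] at h4
      linarith
    rw [← ell_coe (h3 v hv), ← ell_coe (h3 w hw), h2]

/-- **Converse.** -/
theorem man_locinj_conv (f : Diffeomorph 𝓘(ℝ, E) 𝓘(ℝ, E) M M 1)
    (Es Eu : ∀ x : M, Submodule ℝ (TangentSpace 𝓘(ℝ, E) x)) (hAn : IsAnosov f Es Eu)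
    {u : ℕ} (hu : ∀ x, Module.finrank ℝ (Eu x) = u) (hT : IsToral f) :
    ∃ p : C(M, Fin u → AddCircle (1 : ℝ)), UnstInj f.symm p := by
  obtain ⟨m, A, h, hdet, hA, hf⟩ := hT
  obtain ⟨B, hB⟩ := exists_int_inj (WR A) (dim_le f Es Eu hAn hu A h hdet hf)
  refine ⟨⟨fun x i => ∑ j, B i j • h x j, by
    refine continuous_pi fun i => continuous_finsetSum _ fun j _ => ?_
    exact ((continuous_apply j).comp h.continuous).const_smul (B i j)⟩, ?_⟩
  -- constants
  set KA : ℝ := 1 + ∑ i, ∑ j, |((A⁻¹ i j : ℤ) : ℝ)| with hKA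
  set KB : ℝ := ∑ i, ∑ j, |(B i j : ℝ)| with hKB
  have hKA0 : 0 ≤ ∑ i, ∑ j, |((A⁻¹ i j : ℤ) : ℝ)| :=
    Finset.sum_nonneg fun i _ => Finset.sum_nonneg fun j _ => abs_nonneg _
  have hKB0 : 0 ≤ KB := Finset.sum_nonneg fun i _ => Finset.sum_nonneg fun j _ => abs_nonneg _
  have hbound : ∀ {a : ℕ} (Q : Matrix (Fin a) (Fin m) ℤ) (v : Fin m → ℝ),
      ‖fun i => ∑ j, (Q i j : ℝ) * v j‖ ≤ (∑ i, ∑ j, |(Q i j : ℝ)|) * ‖v‖ := by
    intro a Q v
    have h0 : 0 ≤ ∑ i, ∑ j, |(Q i j : ℝ)| :=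
      Finset.sum_nonneg fun i _ => Finset.sum_nonneg fun j _ => abs_nonneg _
    rw [pi_norm_le_iff_of_nonneg (by positivity)]
    intro i
    calc ‖∑ j, (Q i j : ℝ) * v j‖ ≤ ∑ j, ‖(Q i j : ℝ) * v j‖ := norm_sum_le _ _
      _ ≤ ∑ j, |(Q i j : ℝ)| * ‖v‖ := by
          refine Finset.sum_le_sum fun j _ => ?_
          rw [norm_mul, Real.norm_eq_abs]
          exact mul_le_mul_of_nonneg_left (norm_le_pi_norm _ j) (abs_nonneg _)
      _ = (∑ j, |(Q i j : ℝ)|) * ‖v‖ := by rw [Finset.sum_mul]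
      _ ≤ _ := by
          refine mul_le_mul_of_nonneg_right ?_ (norm_nonneg _)
          exact Finset.single_le_sum (f := fun i => ∑ j, |(Q i j : ℝ)|)
            (fun i _ => Finset.sum_nonneg fun j _ => abs_nonneg _) (Finset.mem_univ i)
  set δ : ℝ := 1 / (4 * (KA + KB)) with hδ
  have hK1 : 1 ≤ KA + KB := by linarith
  have hδ0 : 0 < δ := by positivity
  have hδA : KA * δ ≤ 1 / 4 := by
    rw [hδ, mul_one_div, div_le_div_iff₀ (by positivity) (by norm_num)]
    linarith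
  have hδB : KB * δ ≤ 1 / 4 := by
    rw [hδ, mul_one_div, div_le_div_iff₀ (by positivity) (by norm_num)]
    linarith
  have hδ4 : δ ≤ 1 / 4 := by
    rw [hδ, div_le_div_iff₀ (by positivity) (by norm_num)]
    linarith
  refine ⟨{q : M × M | ‖h q.2 - h q.1‖ < δ}, ?_, fun x y hxy hp => ?_⟩
  · have hcont : Continuous (fun q : M × M => ‖h q.2 - h q.1‖) := by
      have := h.continuous
      fun_prop
    refine (isOpen_lt hcont continuous_const).mem_nhdsSet.mpr ?_
    rintro ⟨a, b⟩ hab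
    have hab' : a = b := hab
    subst hab'
    show ‖h a - h a‖ < δ
    rw [sub_self, norm_zero]
    exact hδ0
  · -- the displacements
    let w : ℕ → Fin m → ℝ := fun n i => ell (h (f.symm^[n] y) i - h (f.symm^[n] x) i)
    have hwn : ∀ n, ‖w n‖ < δ := by
      intro n
      have h1 : ‖h (f.symm^[n] y) - h (f.symm^[n] x)‖ < δ := hxy n
      rw [pi_norm_lt_iff hδ0]
      intro i
      rw [Real.norm_eq_abs]
      show |ell (h (f.symm^[n] y) i - h (f.symm^[n] x) i)| < δ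
      rw [norm_ell]
      exact (norm_le_pi_norm (h (f.symm^[n] y) - h (f.symm^[n] x)) i).trans_lt h1
    have hwc : ∀ n i, ((w n i : ℝ) : AddCircle (1 : ℝ)) =
        h (f.symm^[n] y) i - h (f.symm^[n] x) i := fun n i => coe_ell _
    have hstep : ∀ n, w (n + 1) = am A⁻¹ (w n) := by
      intro n
      funext i
      show ell (h (f.symm^[n + 1] y) i - h (f.symm^[n + 1] x) i) = am A⁻¹ (w n) i
      have h1 : h (f.symm^[n + 1] y) i - h (f.symm^[n + 1] x) i =
          ((am A⁻¹ (w n) i : ℝ) : AddCircle (1 : ℝ)) := by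
        rw [Function.iterate_succ_apply', Function.iterate_succ_apply', coe_am]
        have e1 := inv_coord f.toHomeomorph A h hdet hf (f.symm^[n] y) i
        have e2 := inv_coord f.toHomeomorph A h hdet hf (f.symm^[n] x) i
        have e1' : h (f.symm (f.symm^[n] y)) i = ∑ j, A⁻¹ i j • h (f.symm^[n] y) j := e1
        have e2' : h (f.symm (f.symm^[n] x)) i = ∑ j, A⁻¹ i j • h (f.symm^[n] x) j := e2
        rw [e1', e2', ← Finset.sum_sub_distrib]
        refine Finset.sum_congr rfl fun j _ => ?_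
        rw [hwc, smul_sub]
      rw [h1]
      apply ell_coe
      have h2 := hbound A⁻¹ (w n)
      have h3 := norm_le_pi_norm (am A⁻¹ (w n)) i
      rw [Real.norm_eq_abs] at h3
      have h4 : ‖am A⁻¹ (w n)‖ ≤ (∑ i, ∑ j, |((A⁻¹ i j : ℤ) : ℝ)|) * ‖w n‖ := h2
      have h5 : (∑ i, ∑ j, |((A⁻¹ i j : ℤ) : ℝ)|) * ‖w n‖ ≤ KA * δ :=
        mul_le_mul (by rw [hKA]; linarith) (hwn n).le (norm_nonneg _) (by rw [hKA]; linarith)
      linarith
    have hw : ∀ n, w n = (am A⁻¹)^[n] (w 0) := by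
      intro n
      induction n with
      | zero => rfl
      | succ n ih => rw [hstep, ih, Function.iterate_succ_apply']
    have hw0 : w 0 ∈ WR A := by
      refine WR_of_bdd A A⁻¹ (Matrix.mul_nonsing_inv A hdet) hA (w 0) ⟨δ, 0, fun n _ => ?_⟩
      rw [← hw]
      exact (hwn n).le
    have hB0 : ∀ i, ∑ j, (B i j : ℝ) * w 0 j = 0 := by
      intro i
      have h1 : ((∑ j, (B i j : ℝ) * w 0 j : ℝ) : AddCircle (1 : ℝ)) = 0 := by
        have h2 : ((∑ j, (B i j : ℝ) * w 0 j : ℝ) : AddCircle (1 : ℝ)) =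
            ∑ j, (((B i j : ℝ) * w 0 j : ℝ) : AddCircle (1 : ℝ)) :=
          map_sum (QuotientAddGroup.mk' (AddSubgroup.zmultiples (1 : ℝ))) _ _
        rw [h2]
        have h3 : ∀ j, (((B i j : ℝ) * w 0 j : ℝ) : AddCircle (1 : ℝ)) =
            B i j • h y j - B i j • h x j := by
          intro j
          rw [← zsmul_eq_mul, AddCircle.coe_zsmul, hwc, smul_sub]
          rfl
        simp_rw [h3]
        rw [Finset.sum_sub_distrib]
        have h4 : ∑ j, B i j • h x j = ∑ j, B i j • h y j := congrFun hp i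
        rw [h4, sub_self]
      have h2 : |∑ j, (B i j : ℝ) * w 0 j| < 1 / 2 := by
        have h3 := hbound B (w 0)
        have h4 := norm_le_pi_norm (fun i => ∑ j, (B i j : ℝ) * w 0 j) i
        rw [Real.norm_eq_abs] at h4
        have h5 : KB * ‖w 0‖ ≤ KB * δ := mul_le_mul_of_nonneg_left (hwn 0).le hKB0
        linarith
      have h3 := ell_coe h2
      rw [h1] at h3
      rw [← h3]
      have h4 := ell_coe (r := 0) (by norm_num)
      rwa [AddCircle.coe_zero] at h4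
    have hw00 := hB (w 0) hw0 hB0
    apply h.injective
    funext i
    have h1 := hwc 0 i
    rw [hw00] at h1
    have h2 : (0 : AddCircle (1 : ℝ)) = h y i - h x i := by
      rw [← AddCircle.coe_zero]
      exact h1
    exact (sub_eq_zero.mp h2.symm).symm

end manifold

end Pool.Agent.W740.TU
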