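import Mathlib

set_option autoImplicit false

open Filter Topology Set Metric

/-!
# Maps to the circle up to maps that lift to the line form a finitely generated group
-/

namespace Pool.Agent.W740.TU

theorem const_of_coe {Y : Type*} [TopologicalSpace Y] {C : Set Y} (hC : IsPreconnected C)
    (h : Y → ℝ) (hc : ContinuousOn h C) (c : AddCircle (1 : ℝ))
    (hh : ∀ y ∈ C, ((h y : ℝ) : AddCircle (1 : ℝ)) = c) {x y : Y} (hx : x ∈ C) (hy : y ∈ C) :
    h x = h y := by
  have key : ∀ x ∈ C, ∀ y ∈ C, ¬ h x < h y := by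
    intro x hx y hy hlt
    have h1 : (h '' C).OrdConnected := (hC.image h hc).ordConnected
    set r := h x + min ((h y - h x) / 2) (1 / 2) with hr
    have h2 : 0 < min ((h y - h x) / 2) (1 / 2) := lt_min (by linarith) (by norm_num)
    have h3 : min ((h y - h x) / 2) (1 / 2) ≤ (h y - h x) / 2 := min_le_left _ _
    have h4 : min ((h y - h x) / 2) (1 / 2) ≤ 1 / 2 := min_le_right _ _
    have h5 : r ∈ Icc (h x) (h y) := ⟨by rw [hr]; linarith, by rw [hr]; linarith⟩
    obtain ⟨z, hz, hzr⟩ := h1.out (mem_image_of_mem h hx) (mem_image_of_mem h hy) h5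
    have h6 : (((h z - h x : ℝ)) : AddCircle (1 : ℝ)) = 0 := by
      rw [AddCircle.coe_sub, hh z hz, hh x hx, sub_self]
    obtain ⟨n, hn⟩ := (AddCircle.coe_eq_zero_iff (1 : ℝ)).mp h6
    rw [hzr, hr, add_sub_cancel_left] at hn
    have hn' : (n : ℝ) = min ((h y - h x) / 2) (1 / 2) := by
      rw [← hn]; simp
    have h7 : (0 : ℝ) < n := by rw [hn']; exact h2
    have h8 : (n : ℝ) < 1 := by rw [hn']; linarith
    have h9 : 0 < n := by exact_mod_cast h7
    have h10 : n < 1 := by exact_mod_cast h8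
    omega
  exact le_antisymm (not_lt.mp (key y hy x hx)) (not_lt.mp (key x hx y hy))

variable {X : Type*} [MetricSpace X]

/-- Small balls are connected in larger ones, and maps to the circle lift on balls. -/
structure LL (X : Type*) [MetricSpace X] (lam δ : ℝ) : Prop where
  δ_pos : 0 < δ
  le : δ ≤ lam / 2
  conn : ∀ x y : X, dist x y < δ → ∃ C ⊆ ball x (lam / 2), IsPreconnected C ∧ x ∈ C ∧ y ∈ C
  lift : ∀ (g : C(X, AddCircle (1 : ℝ))) (x : X), ∃ h : X → ℝ, ContinuousOn h (ball x lam) ∧
    ∀ y ∈ ball x lam, ((h y : ℝ) : AddCircle (1 : ℝ)) = g y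

namespace LL

variable {lam δ : ℝ} (L : LL X lam δ)

include L in
theorem lam_pos : 0 < lam := by
  have := L.δ_pos
  have := L.le
  linarith

/-- the local displacement -/
noncomputable def D (g : C(X, AddCircle (1 : ℝ))) (x y : X) : ℝ :=
  (L.lift g x).choose y - (L.lift g x).choose x

theorem D_eq (g : C(X, AddCircle (1 : ℝ))) {x y z : X} (hz : dist z x < lam / 2)
    (hxy : dist x y < δ) (h : X → ℝ) (hc : ContinuousOn h (ball z lam))
    (hh : ∀ y ∈ ball z lam, ((h y : ℝ) : AddCircle (1 : ℝ)) = g y) :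
    h y - h x = L.D g x y := by
  obtain ⟨C, hC, hCc, hx, hy⟩ := L.conn x y hxy
  have hl := L.lam_pos
  have hsub : C ⊆ ball z lam := by
    intro w hw
    have h1 := hC hw
    rw [mem_ball] at h1 ⊢
    have h2 := dist_triangle w x z
    rw [dist_comm x z] at h2
    linarith
  have hsub' : C ⊆ ball x lam := by
    intro w hw
    have h1 := hC hw
    rw [mem_ball] at h1 ⊢
    linarith
  have hch := (L.lift g x).choose_spec
  have h3 := const_of_coe hCc (fun w => h w - (L.lift g x).choose w)
    ((hc.mono hsub).sub (hch.1.mono hsub')) 0 (fun w hw => by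
      rw [AddCircle.coe_sub, hh w (hsub hw), hch.2 w (hsub' hw), sub_self]) hx hy
  have h3' : h x - (L.lift g x).choose x = h y - (L.lift g x).choose y := h3
  show h y - h x = (L.lift g x).choose y - (L.lift g x).choose x
  linarith

theorem D_add (g g' : C(X, AddCircle (1 : ℝ))) {x y : X} (hxy : dist x y < δ) :
    L.D (g + g') x y = L.D g x y + L.D g' x y := by
  have hl := L.lam_pos
  have hch := (L.lift g x).choose_spec
  have hch' := (L.lift g' x).choose_spec
  rw [← L.D_eq (g + g') (z := x) (by rw [dist_self]; linarith) hxy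
    (fun w => (L.lift g x).choose w + (L.lift g' x).choose w) (hch.1.add hch'.1) (fun w hw => by
      rw [AddCircle.coe_add, hch.2 w hw, hch'.2 w hw]; rfl)]
  show _ = ((L.lift g x).choose y - (L.lift g x).choose x) +
    ((L.lift g' x).choose y - (L.lift g' x).choose x)
  ring

theorem D_cocycle (g : C(X, AddCircle (1 : ℝ))) {x y z : X} (hxy : dist x y < δ)
    (hyz : dist y z < δ) : L.D g x z = L.D g x y + L.D g y z := by
  have hch := (L.lift g x).choose_spec
  rw [← L.D_eq g (z := x) (hxy.trans_le L.le) hyz _ hch.1 hch.2]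
  show (L.lift g x).choose z - (L.lift g x).choose x = ((L.lift g x).choose y -
    (L.lift g x).choose x) + ((L.lift g x).choose z - (L.lift g x).choose y)
  ring

theorem D_cont (g : C(X, AddCircle (1 : ℝ))) (x : X) : ContinuousOn (L.D g x) (ball x lam) :=
  (L.lift g x).choose_spec.1.sub continuousOn_const

theorem coe_D (g : C(X, AddCircle (1 : ℝ))) {x y : X} (h : y ∈ ball x lam) :
    ((L.D g x y : ℝ) : AddCircle (1 : ℝ)) = g y - g x := by
  have hch := (L.lift g x).choose_spec
  show (((L.lift g x).choose y - (L.lift g x).choose x : ℝ) : AddCircle (1 : ℝ)) = _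
  rw [AddCircle.coe_sub, hch.2 y h, hch.2 x (mem_ball_self L.lam_pos)]

/-- the displacement as a homomorphism -/
noncomputable def Dh {x y : X} (hxy : dist x y < δ) : C(X, AddCircle (1 : ℝ)) →+ ℝ :=
  AddMonoidHom.mk' (fun g => L.D g x y) fun g g' => L.D_add g g' hxy

include L in
theorem exists_T [ConnectedSpace X] (x₁ : X) (x : X) :
    ∃ T : C(X, AddCircle (1 : ℝ)) →+ ℝ, ∀ g, ((T g : ℝ) : AddCircle (1 : ℝ)) = g x - g x₁ := by
  set S : Set X := {x | ∃ T : C(X, AddCircle (1 : ℝ)) →+ ℝ,
    ∀ g, ((T g : ℝ) : AddCircle (1 : ℝ)) = g x - g x₁} with hS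
  have hstep : ∀ x y, dist x y < δ → x ∈ S → y ∈ S := by
    rintro x y hxy ⟨T, hT⟩
    refine ⟨T + L.Dh hxy, fun g => ?_⟩
    show ((T g + L.D g x y : ℝ) : AddCircle (1 : ℝ)) = _
    have hy : y ∈ ball x lam := by
      rw [mem_ball, dist_comm]
      have := L.le
      have := L.lam_pos
      linarith
    rw [AddCircle.coe_add, hT, L.coe_D g hy]
    abel
  have hopen : IsOpen S := by
    rw [Metric.isOpen_iff]
    intro x hx
    exact ⟨δ, L.δ_pos, fun y hy => hstep x y (by rwa [dist_comm, ← mem_ball]) hx⟩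
  have hclosed : IsClosed S := by
    rw [← isOpen_compl_iff, Metric.isOpen_iff]
    intro x hx
    exact ⟨δ, L.δ_pos, fun y hy hyS => hx (hstep y x (by rwa [← mem_ball]) hyS)⟩
  have huniv : S = univ := IsClopen.eq_univ ⟨hclosed, hopen⟩ ⟨x₁, 0, fun g => by simp⟩
  have : x ∈ S := by rw [huniv]; trivial
  exact this

include L in
/-- The group of maps to the circle modulo maps that lift to the line is finitely generated. -/
theorem exists_gen [CompactSpace X] [ConnectedSpace X] :
    ∃ (k : ℕ) (φ : Fin k → C(X, AddCircle (1 : ℝ))), ∀ g : C(X, AddCircle (1 : ℝ)),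
      ∃ (c : Fin k → ℤ) (e : X → ℝ), Continuous e ∧
        ∀ x, g x = ∑ i, c i • φ i x + ((e x : ℝ) : AddCircle (1 : ℝ)) := by
  classical
  obtain ⟨x₁⟩ : Nonempty X := inferInstance
  choose T hT using L.exists_T x₁
  have hδ := L.δ_pos
  have hle := L.le
  -- a net
  obtain ⟨t, -, ht⟩ := (isCompact_univ (X := X)).elim_nhds_subcover (fun x => ball x (δ / 3))
    (fun x _ => ball_mem_nhds x (by positivity))
  have hnet : ∀ x : X, ∃ a ∈ t, dist a x < δ / 3 := by
    intro x
    obtain ⟨a, ha, hax⟩ := mem_iUnion₂.mp (ht (mem_univ x))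
    exact ⟨a, ha, by rwa [dist_comm, ← mem_ball]⟩
  -- the integral homomorphism
  let R : X × X → C(X, AddCircle (1 : ℝ)) →+ ℝ := fun p =>
    if h : dist p.1 p.2 < δ then T p.1 + L.Dh h - T p.2 else 0
  have hR : ∀ p g, ((R p g : ℝ) : AddCircle (1 : ℝ)) = 0 := by
    intro p g
    by_cases h : dist p.1 p.2 < δ
    · have h1 : R p = T p.1 + L.Dh h - T p.2 := dif_pos h
      rw [h1]
      show ((T p.1 g + L.D g p.1 p.2 - T p.2 g : ℝ) : AddCircle (1 : ℝ)) = 0
      have hy : p.2 ∈ ball p.1 lam := by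
        rw [mem_ball, dist_comm]
        have := L.lam_pos
        linarith
      rw [AddCircle.coe_sub, AddCircle.coe_add, hT, hT, L.coe_D g hy]
      abel
    · have h1 : R p = 0 := dif_neg h
      rw [h1]
      simp
  have hRi : ∀ p g, ((round (R p g) : ℤ) : ℝ) = R p g := by
    intro p g
    obtain ⟨n, hn⟩ := (AddCircle.coe_eq_zero_iff (1 : ℝ)).mp (hR p g)
    have h1 : R p g = (n : ℝ) := by rw [← hn]; simp
    rw [h1, round_intCast]
  let w : C(X, AddCircle (1 : ℝ)) →+ ((t × t) → ℤ) :=
    AddMonoidHom.mk' (fun g p => round (R (p.1, p.2) g)) fun g g' => by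
      funext p
      show round (R (p.1, p.2) (g + g')) = round (R (p.1, p.2) g) + round (R (p.1, p.2) g')
      have h1 : ((round (R (p.1, p.2) (g + g')) : ℤ) : ℝ) =
          ((round (R (p.1, p.2) g) + round (R (p.1, p.2) g') : ℤ) : ℝ) := by
        push_cast
        rw [hRi, hRi, hRi, map_add]
      exact_mod_cast h1
  obtain ⟨k, s, hs⟩ := Submodule.fg_iff_exists_fin_generating_family.mp
    (IsNoetherian.noetherian (LinearMap.range w.toIntLinearMap))
  have hs' : ∀ i, ∃ φ : C(X, AddCircle (1 : ℝ)), w φ = s i := by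
    intro i
    have h1 : s i ∈ LinearMap.range w.toIntLinearMap := by
      rw [← hs]
      exact Submodule.subset_span (mem_range_self i)
    exact h1
  choose φ hφ using hs'
  refine ⟨k, φ, fun g => ?_⟩
  obtain ⟨c, hc⟩ : ∃ c : Fin k → ℤ, ∑ i, c i • s i = w g := by
    have h1 : w g ∈ Submodule.span ℤ (range s) := by
      rw [hs]
      exact ⟨g, rfl⟩
    exact (Submodule.mem_span_range_iff_exists_fun ℤ).mp h1
  set g' : C(X, AddCircle (1 : ℝ)) := g - ∑ i, c i • φ i with hg'
  have hw0 : w g' = 0 := by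
    rw [hg', map_sub, map_sum, ← hc]
    simp_rw [map_zsmul, hφ]
    exact sub_self _
  have hker : ∀ a ∈ t, ∀ b ∈ t, dist a b < δ → T a g' + L.D g' a b = T b g' := by
    intro a ha b hb hab
    have h1 : round (R (a, b) g') = 0 := congrFun hw0 (⟨a, ha⟩, ⟨b, hb⟩)
    have h2 := hRi (a, b) g'
    rw [h1] at h2
    have h3 : R (a, b) = T a + L.Dh hab - T b := dif_pos hab
    rw [h3] at h2
    have h4 : ((0 : ℤ) : ℝ) = T a g' + L.D g' a b - T b g' := h2
    push_cast at h4
    linarith
  -- the lift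
  choose a ha hax using hnet
  let e : X → ℝ := fun x => T (a x) g' + L.D g' (a x) x
  have he : ∀ x, ∀ b ∈ t, dist b x < δ / 3 → e x = T b g' + L.D g' b x := by
    intro x b hb hbx
    have h1 : dist b (a x) < δ := by
      have := dist_triangle_right b (a x) x
      have := hax x
      linarith
    have h2 := L.D_cocycle g' (x := b) (y := a x) (z := x) h1 (by have := hax x; linarith)
    have h3 := hker b hb (a x) (ha x) h1
    show T (a x) g' + L.D g' (a x) x = T b g' + L.D g' b x
    rw [h2]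
    linarith
  have hecont : Continuous e := by
    rw [continuous_iff_continuousAt]
    intro x
    have h1 : ∀ᶠ y in 𝓝 x, e y = T (a x) g' + L.D g' (a x) y := by
      have h2 : ball (a x) (δ / 3) ∈ 𝓝 x := isOpen_ball.mem_nhds (by
        rw [mem_ball, dist_comm]; exact hax x)
      filter_upwards [h2] with y hy
      exact he y (a x) (ha x) (by rwa [dist_comm, ← mem_ball])
    refine ContinuousAt.congr ?_ (h1.mono fun y hy => hy.symm)
    refine continuousAt_const.add ((L.D_cont g' (a x)).continuousAt ?_)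
    refine isOpen_ball.mem_nhds ?_
    rw [mem_ball, dist_comm]
    have := hax x
    have := L.lam_pos
    linarith
  obtain ⟨r, hr⟩ : ∃ r : ℝ, ((r : ℝ) : AddCircle (1 : ℝ)) = g' x₁ := QuotientAddGroup.mk_surjective _
  refine ⟨c, fun x => e x + r, hecont.add continuous_const, fun x => ?_⟩
  have h1 : ((e x : ℝ) : AddCircle (1 : ℝ)) = g' x - g' x₁ := by
    show ((T (a x) g' + L.D g' (a x) x : ℝ) : AddCircle (1 : ℝ)) = _
    have hy : x ∈ ball (a x) lam := by
      rw [mem_ball, dist_comm]
      have := hax x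
      have := L.lam_pos
      linarith
    rw [AddCircle.coe_add, hT, L.coe_D g' hy]
    abel
  rw [AddCircle.coe_add, h1, hr]
  have h2 : g' x = g x - ∑ i, c i • φ i x := by
    rw [hg']
    simp [ContinuousMap.sum_apply]
  rw [h2]
  abel

end LL

end Pool.Agent.W740.TU
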