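import Pool.Agent.W740.TU.ConvM

set_option autoImplicit false
set_option linter.unusedSectionVars false

open Filter Topology Set
open scoped Manifold ContDiff

namespace Pool.Agent.W740.TU

open Pool.Agent.H721R2 Pool.Agent.H789R2.AN Pool.Agent.W740.TC
open Pool.Agent.H779R2.To (IsToral)

variable {E : Type*} [NormedAddCommGroup E] [NormedSpace ℝ E] [FiniteDimensional ℝ E]
  {M : Type*} [TopologicalSpace M] [T2Space M] [CompactSpace M] [ConnectedSpace M]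
  [ChartedSpace E M] [IsManifold 𝓘(ℝ, E) ∞ M]

omit [FiniteDimensional ℝ E] [T2Space M] [CompactSpace M] [ConnectedSpace M] in
theorem invField_symm (f : Diffeomorph 𝓘(ℝ, E) 𝓘(ℝ, E) M M 1)
    (V : ∀ x : M, Submodule ℝ (TangentSpace 𝓘(ℝ, E) x)) (h : InvariantField f V) :
    InvariantField f.symm V := by
  intro x
  have h1 : ∀ y : M, (V y).map (mfderiv 𝓘(ℝ, E) 𝓘(ℝ, E) f y).toLinearMap = V (f y) := h
  have key : ∀ y : M, (V (f y)).map (mfderiv 𝓘(ℝ, E) 𝓘(ℝ, E) f.symm (f y)).toLinearMap =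
      (V y : Submodule ℝ E) := by
    intro y
    have hc : (mfderiv 𝓘(ℝ, E) 𝓘(ℝ, E) f.symm (f y)).comp (mfderiv 𝓘(ℝ, E) 𝓘(ℝ, E) f y) =
        ContinuousLinearMap.id ℝ (TangentSpace 𝓘(ℝ, E) y) := by
      have e1 := mfderiv_comp y (I := 𝓘(ℝ, E)) (I' := 𝓘(ℝ, E)) (I'' := 𝓘(ℝ, E))
        (g := f.symm) (f := f)
        ((f.symm.contMDiff).mdifferentiableAt (by norm_num))
        ((f.contMDiff).mdifferentiableAt (by norm_num))
      have e2 : (f.symm : M → M) ∘ (f : M → M) = id := by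
        funext z
        exact f.symm_apply_apply z
      rw [e2, mfderiv_id] at e1
      exact e1.symm
    have e3 : ∀ v : E, (mfderiv 𝓘(ℝ, E) 𝓘(ℝ, E) f.symm (f y))
        ((mfderiv 𝓘(ℝ, E) 𝓘(ℝ, E) f y) v) = v := fun v =>
      congrArg (fun L : E →L[ℝ] E => L v) hc
    rw [← h1 y]
    ext v
    constructor
    · rintro ⟨w, ⟨z, hz, rfl⟩, rfl⟩
      have e4 := e3 z
      change (mfderiv 𝓘(ℝ, E) 𝓘(ℝ, E) f.symm (f y))
        ((mfderiv 𝓘(ℝ, E) 𝓘(ℝ, E) f y) z) ∈ _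
      rw [e4]
      exact hz
    · intro hv
      exact ⟨(mfderiv 𝓘(ℝ, E) 𝓘(ℝ, E) f y) v, ⟨v, hv, rfl⟩, e3 v⟩
  have h2 := key (f.symm x)
  rw [f.apply_symm_apply] at h2
  exact h2

omit [FiniteDimensional ℝ E] [T2Space M] [CompactSpace M] [ConnectedSpace M] in
theorem anosov_symm (f : Diffeomorph 𝓘(ℝ, E) 𝓘(ℝ, E) M M 1)
    (Es Eu : ∀ x : M, Submodule ℝ (TangentSpace 𝓘(ℝ, E) x)) (h : IsAnosov f Es Eu) :
    IsAnosov f.symm Eu Es where
  isCompl := fun x => (h.isCompl x).symm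
  map_s := invField_symm f Eu h.map_u
  map_u := invField_symm f Es h.map_s
  rates := by
    obtain ⟨N, C, l, hN, hC, hl0, hl1, h1, h2⟩ := h.rates
    exact ⟨N, C, l, hN, hC, hl0, hl1, h2, h1⟩

theorem transitive_symm (f : M ≃ₜ M) (h : TopTransitive f.symm) : TopTransitive f := by
  intro U V hU hUn hV hVn
  obtain ⟨n, y, ⟨x, hx, hxy⟩, hy⟩ := h V U hV hVn hU hUn
  refine ⟨n, x, ⟨y, hy, ?_⟩, hx⟩
  rw [← hxy]
  exact (Function.LeftInverse.iterate f.apply_symm_apply n) x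

/-- Both foliations. -/
theorem man_either (f : Diffeomorph 𝓘(ℝ, E) 𝓘(ℝ, E) M M 1)
    (Es Eu : ∀ x : M, Submodule ℝ (TangentSpace 𝓘(ℝ, E) x)) (hA : IsAnosov f Es Eu)
    {s u : ℕ} (hs : ∀ x, Module.finrank ℝ (Es x) = s) (hu : ∀ x, Module.finrank ℝ (Eu x) = u)
    (h : (∃ p : C(M, Fin u → AddCircle (1 : ℝ)), UnstInj f.symm p) ∨
      ∃ p : C(M, Fin s → AddCircle (1 : ℝ)), UnstInj f p) :
    TopTransitive f ∧ IsToral f ∧
      (∃ q : E → M, IsCoveringMap q ∧ Function.Surjective q) ∧ Dense (Function.periodicPts f) := by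
  rcases h with ⟨p, hp⟩ | ⟨p, hp⟩
  · exact man_locinj f Es Eu hA hu p p.continuous hp
  · obtain ⟨h1, h2, h3, h4⟩ := man_locinj f.symm Eu Es (anosov_symm f Es Eu hA) hs p p.continuous hp
    refine ⟨transitive_symm f.toHomeomorph h1, IsToral.inv f.toHomeomorph h2, h3, ?_⟩
    refine h4.mono ?_
    rintro x ⟨n, hn, hx⟩
    refine ⟨n, hn, ?_⟩
    have h5 : f.symm^[n] x = x := hx
    have h6 : f^[n] (f.symm^[n] x) = x :=
      (Function.LeftInverse.iterate f.apply_symm_apply n) x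
    rw [h5] at h6
    exact h6

/-- The converse for both foliations. -/
theorem man_both (f : Diffeomorph 𝓘(ℝ, E) 𝓘(ℝ, E) M M 1)
    (Es Eu : ∀ x : M, Submodule ℝ (TangentSpace 𝓘(ℝ, E) x)) (hA : IsAnosov f Es Eu)
    {s u : ℕ} (hs : ∀ x, Module.finrank ℝ (Es x) = s) (hu : ∀ x, Module.finrank ℝ (Eu x) = u)
    (h : IsToral f) : (∃ p : C(M, Fin u → AddCircle (1 : ℝ)), UnstInj f.symm p) ∧
      ∃ p : C(M, Fin s → AddCircle (1 : ℝ)), UnstInj f p := by
  refine ⟨man_locinj_conv f Es Eu hA hu h, ?_⟩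
  have h1 : IsToral f.symm := by
    have h2 : IsToral (f.toHomeomorph.symm.symm : M → M) := h
    exact IsToral.inv f.toHomeomorph.symm h2
  exact man_locinj_conv f.symm Eu Es (anosov_symm f Es Eu hA) hs h1

end Pool.Agent.W740.TU
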